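import Pool.Agent.Helper923.PNT

open Filter Topology

namespace Pool.Agent.H357R2.SI

/-- `piS x H` is the number `π(x, H)` of primes `p` with `x < p ≤ x + H`. -/
noncomputable def piS (x H : ℝ) : ℕ := ((Finset.Ioc ⌊x⌋₊ ⌊x + H⌋₊).filter Nat.Prime).card

/-- number of primes in `(a, b]` -/
def pc (a b : ℕ) : ℕ := ((Finset.Ioc a b).filter Nat.Prime).card

lemma piS_nat (n : ℕ) (H : ℝ) (hH : 0 ≤ H) : piS n H = pc n (n + ⌊H⌋₊) := by
  unfold piS pc
  rw [Nat.floor_natCast, add_comm (n : ℝ) H, Nat.floor_add_natCast hH, add_comm]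

lemma pc_add {a b c : ℕ} (hab : a ≤ b) (hbc : b ≤ c) : pc a b + pc b c = pc a c := by
  unfold pc
  rw [← Finset.card_union_of_disjoint]
  · congr 1
    rw [← Finset.filter_union, Finset.Ioc_union_Ioc_eq_Ioc hab hbc]
  · apply Finset.disjoint_filter_filter
    rw [Finset.disjoint_left]
    intro x hx hx'
    rw [Finset.mem_Ioc] at hx hx'
    omega

lemma pc_self (a : ℕ) : pc a a = 0 := by simp [pc]

lemma pc_succ (a : ℕ) : pc a (a + 1) = if (a + 1).Prime then 1 else 0 := by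
  unfold pc
  rw [Nat.Ioc_succ_singleton, Finset.filter_singleton]
  split_ifs <;> simp

lemma pc_zero (n : ℕ) : pc 0 n = Nat.primeCounting n := by
  unfold pc
  rw [Nat.primeCounting, Nat.primeCounting', Nat.count_eq_card_filter_range]
  congr 1
  ext p
  simp only [Finset.mem_filter, Finset.mem_Ioc, Finset.mem_range]
  constructor
  · rintro ⟨h1, h2⟩; exact ⟨by omega, h2⟩
  · rintro ⟨h1, h2⟩; exact ⟨⟨h2.pos, by omega⟩, h2⟩

lemma pc_eq_sub {a b : ℕ} (hab : a ≤ b) :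
    (pc a b : ℝ) = Nat.primeCounting b - Nat.primeCounting a := by
  have h := pc_add (Nat.zero_le a) hab
  rw [pc_zero, pc_zero] at h
  rw [← h]; push_cast; ring

lemma pc_mono {a b c : ℕ} (hbc : b ≤ c) : pc a b ≤ pc a c := by
  unfold pc
  exact Finset.card_le_card (Finset.filter_subset_filter _ (Finset.Ioc_subset_Ioc_right hbc))

lemma pc_anti {a a' b : ℕ} (h : a ≤ a') : pc a' b ≤ pc a b := by
  unfold pc
  exact Finset.card_le_card (Finset.filter_subset_filter _ (Finset.Ioc_subset_Ioc_left h))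

/-- The prime number theorem in the form used below. -/
lemma pnt (δ : ℝ) (hδ : 0 < δ) : ∃ X₀ : ℕ, 3 ≤ X₀ ∧ ∀ n : ℕ, X₀ ≤ n →
    (1 - δ) * n / Real.log n ≤ Nat.primeCounting n ∧
      (Nat.primeCounting n : ℝ) ≤ (1 + δ) * n / Real.log n := by
  have h := Pool.Agent.Helper923.PNT.pi_tendsto.comp (tendsto_natCast_atTop_atTop (R := ℝ))
  have h1 := (Metric.tendsto_nhds.mp h δ hδ).exists_forall_of_atTop
  obtain ⟨X, hX⟩ := h1
  refine ⟨max X 3, le_max_right _ _, fun n hn => ?_⟩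
  have hn3 : 3 ≤ n := (le_max_right _ _).trans hn
  have h2 := hX n ((le_max_left _ _).trans hn)
  simp only [Function.comp, Nat.floor_natCast, Real.dist_eq] at h2
  have hn0 : (0 : ℝ) < n := by positivity
  have hn1 : (1 : ℝ) < n := by exact_mod_cast (by omega : 1 < n)
  have hl : 0 < Real.log n := Real.log_pos hn1
  rw [abs_lt] at h2
  obtain ⟨h3, h4⟩ := h2
  have h5 : (1 - δ) ≤ (Nat.primeCounting n : ℝ) * Real.log n / n := by linarith
  have h6 : (Nat.primeCounting n : ℝ) * Real.log n / n ≤ 1 + δ := by linarith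
  rw [le_div_iff₀ hn0] at h5
  rw [div_le_iff₀ hn0] at h6
  constructor
  · rw [div_le_iff₀ hl]
    exact h5
  · rw [le_div_iff₀ hl]
    exact h6

/-- Upper bound for primes in windows: `π(n, H) log n ≤ H + δ (2 n + H)`. -/
lemma pc_window_upper (δ : ℝ) (hδ : 0 < δ) : ∃ X₀ : ℕ, 3 ≤ X₀ ∧ ∀ n H : ℕ, X₀ ≤ n →
    (pc n (n + H) : ℝ) * Real.log n ≤ H + δ * (2 * n + H) := by
  obtain ⟨X₀, h3, h⟩ := pnt δ hδ
  refine ⟨X₀, h3, fun n H hn => ?_⟩
  have hn1 : (1 : ℝ) < n := by exact_mod_cast (by omega : 1 < n)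
  have hl : 0 < Real.log n := Real.log_pos hn1
  have hl2 : Real.log n ≤ Real.log ((n + H : ℕ) : ℝ) := by
    apply Real.log_le_log (by linarith)
    push_cast
    have : (0 : ℝ) ≤ H := Nat.cast_nonneg H
    linarith
  obtain ⟨h1, -⟩ := h n hn
  obtain ⟨-, h2⟩ := h (n + H) (by omega)
  rw [pc_eq_sub (by omega)]
  have h4 : (1 + δ) * ((n + H : ℕ) : ℝ) / Real.log ((n + H : ℕ) : ℝ) ≤
      (1 + δ) * ((n + H : ℕ) : ℝ) / Real.log n := by
    apply div_le_div_of_nonneg_left _ hl hl2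
    positivity
  have h5 : ((Nat.primeCounting (n + H) : ℝ) - Nat.primeCounting n) ≤
      ((1 + δ) * ((n + H : ℕ) : ℝ) - (1 - δ) * n) / Real.log n := by
    rw [sub_div]
    linarith
  rw [← le_div_iff₀ hl]
  refine h5.trans (le_of_eq ?_)
  congr 1
  push_cast
  ring

/-- Lower bound for primes in windows. -/
lemma pc_window_lower (δ : ℝ) (hδ : 0 < δ) (hδ1 : δ < 1) : ∃ X₀ : ℕ, 3 ≤ X₀ ∧
    ∀ n H : ℕ, X₀ ≤ n → H ≤ n →
    (H : ℝ) - 5 * δ * n ≤ (pc n (n + H) : ℝ) * Real.log n := by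
  obtain ⟨X₀, h3, h⟩ := pnt δ hδ
  -- log 2 ≤ δ log n eventually
  have hlim : Tendsto (fun n : ℕ => Real.log (n : ℝ)) atTop atTop :=
    Real.tendsto_log_atTop.comp tendsto_natCast_atTop_atTop
  obtain ⟨X₁, hX₁⟩ := (hlim.eventually_ge_atTop (Real.log 2 / δ)).exists_forall_of_atTop
  refine ⟨max X₀ X₁, h3.trans (le_max_left _ _), fun n H hn hH => ?_⟩
  have hn0 : X₀ ≤ n := (le_max_left _ _).trans hn
  have hn1 : (1 : ℝ) < n := by exact_mod_cast (by omega : 1 < n)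
  have hl : 0 < Real.log n := Real.log_pos hn1
  have hlog2 : Real.log 2 ≤ δ * Real.log n := by
    have := hX₁ n ((le_max_right _ _).trans hn)
    rw [div_le_iff₀ hδ] at this
    linarith
  obtain ⟨-, h1⟩ := h n hn0
  obtain ⟨h2, -⟩ := h (n + H) (by omega)
  rw [pc_eq_sub (by omega)]
  have hHr : (H : ℝ) ≤ n := by exact_mod_cast hH
  have hH0 : (0 : ℝ) ≤ H := Nat.cast_nonneg H
  have hl2 : Real.log ((n + H : ℕ) : ℝ) ≤ (1 + δ) * Real.log n := by
    have h5 : Real.log ((n + H : ℕ) : ℝ) ≤ Real.log (2 * n) := by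
      apply Real.log_le_log
      · push_cast; linarith
      · push_cast; linarith
    rw [Real.log_mul (by norm_num) (by linarith)] at h5
    linarith
  have hl3 : 0 < Real.log ((n + H : ℕ) : ℝ) := by
    apply Real.log_pos
    push_cast; linarith
  have h6 : (1 - δ) * ((n + H : ℕ) : ℝ) / ((1 + δ) * Real.log n) ≤
      (1 - δ) * ((n + H : ℕ) : ℝ) / Real.log ((n + H : ℕ) : ℝ) := by
    apply div_le_div_of_nonneg_left _ hl3 hl2
    apply mul_nonneg (by linarith) (Nat.cast_nonneg _)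
  have h7 : (1 - 2 * δ) * ((n + H : ℕ) : ℝ) / Real.log n ≤
      (1 - δ) * ((n + H : ℕ) : ℝ) / ((1 + δ) * Real.log n) := by
    rw [div_le_div_iff₀ hl (by positivity)]
    have h8 : (1 - 2 * δ) * (1 + δ) ≤ 1 - δ := by nlinarith
    have h9 : 0 ≤ ((n + H : ℕ) : ℝ) * Real.log n := by positivity
    nlinarith
  have h10 : ((1 - 2 * δ) * ((n + H : ℕ) : ℝ) - (1 + δ) * n) / Real.log n ≤
      ((Nat.primeCounting (n + H) : ℝ) - Nat.primeCounting n) := by
    rw [sub_div]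
    linarith
  rw [div_le_iff₀ hl] at h10
  refine le_trans ?_ h10
  push_cast
  nlinarith

end Pool.Agent.H357R2.SI
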