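import Pool.Agent.H357R2.SI.Moment

set_option autoImplicit false

open Filter Topology

namespace Pool.Agent.H357R2.SI

/-- second moment at scales `T ≥ (log N) / 2` -/
lemma second_moment_scales : ∃ C : ℝ, 1 ≤ C ∧ ∃ N₀ : ℕ, 3 ≤ N₀ ∧ ∀ N T : ℕ, N₀ ≤ N →
    Real.log N / 2 ≤ T → T ≤ N →
    ∑ n ∈ Finset.range N, ((pc n (n + T) : ℝ)) ^ 2 ≤ C * N * T ^ 2 / Real.log N ^ 2 := by
  obtain ⟨C1, hC1, u0, hps⟩ := pair_sieve
  obtain ⟨C2, hC2, hsg⟩ := sum_sg_sq
  obtain ⟨X₀, hX₀, hpnt⟩ := pnt 1 one_pos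
  refine ⟨8 + 4 * C1 * C2, by nlinarith, max X₀ u0, by omega, ?_⟩
  intro N T hN hLT hTNn
  have hNX : X₀ ≤ N := (le_max_left _ _).trans hN
  have hNu : u0 ≤ N := (le_max_right _ _).trans hN
  have hN3 : (3 : ℝ) ≤ N := by exact_mod_cast hX₀.trans hNX
  have hL : 0 < Real.log N := Real.log_pos (by linarith)
  have hTN' : (T : ℝ) ≤ N := by exact_mod_cast hTNn
  have hT0 : (0 : ℝ) < T := by linarith
  have h1 : (∑ n ∈ Finset.range N, ((pc n (n + T) : ℝ)) ^ 2) ≤
      T * (((PZ (N + T)).card : ℝ) + 2 * ∑ h ∈ Finset.Icc 1 T,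
        (((Finset.Ioc 0 (N + T)).filter (fun n => n.Prime ∧ (n + h).Prime)).card : ℝ)) := by
    exact_mod_cast second_moment N T
  have hlogZ : Real.log N ≤ Real.log ((N + T : ℕ) : ℝ) := by
    apply Real.log_le_log (by linarith)
    push_cast; linarith
  have hZ2 : (((N + T : ℕ)) : ℝ) ≤ 2 * N := by push_cast; linarith
  have h2 : ((PZ (N + T)).card : ℝ) ≤ 4 * N / Real.log N := by
    have h3 : (PZ (N + T)).card = Nat.primeCounting (N + T) := pc_zero (N + T)
    rw [h3]
    refine (hpnt (N + T) (by omega)).2.trans ?_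
    apply div_le_div₀ (by positivity) _ hL hlogZ
    linarith
  have h3 : ∀ h ∈ Finset.Icc 1 T,
      (((Finset.Ioc 0 (N + T)).filter (fun n => n.Prime ∧ (n + h).Prime)).card : ℝ) ≤
      2 * C1 * N / Real.log N ^ 2 * sg h ^ 2 := by
    intro h hh
    rw [Finset.mem_Icc] at hh
    have h4 := hps h 0 (N + T) (by omega) (by omega)
    rw [zero_add] at h4
    refine h4.trans ?_
    calc C1 * sg h ^ 2 * ((N + T : ℕ) : ℝ) / Real.log ((N + T : ℕ) : ℝ) ^ 2
        ≤ C1 * sg h ^ 2 * (2 * N) / Real.log N ^ 2 := by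
          apply div_le_div₀ (by positivity) _ (by positivity)
          · gcongr
          · gcongr
      _ = 2 * C1 * N / Real.log N ^ 2 * sg h ^ 2 := by ring
  have h4 : ∑ h ∈ Finset.Icc 1 T,
      (((Finset.Ioc 0 (N + T)).filter (fun n => n.Prime ∧ (n + h).Prime)).card : ℝ) ≤
      2 * C1 * N / Real.log N ^ 2 * (C2 * T) := by
    refine (Finset.sum_le_sum h3).trans ?_
    rw [← Finset.mul_sum]
    exact mul_le_mul_of_nonneg_left (hsg T) (by positivity)
  have h5 : 4 * (N : ℝ) / Real.log N ≤ 8 * N * T / Real.log N ^ 2 := by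
    rw [div_le_div_iff₀ hL (by positivity)]
    have : Real.log N ^ 2 = Real.log N * Real.log N := sq _
    rw [this]
    have h6 : Real.log N ≤ 2 * T := by linarith
    calc 4 * (N : ℝ) * (Real.log N * Real.log N) ≤ 4 * N * ((2 * T) * Real.log N) := by gcongr
      _ = 8 * N * T * Real.log N := by ring
  calc _ ≤ _ := h1
    _ ≤ T * (8 * N * T / Real.log N ^ 2 + 2 * (2 * C1 * N / Real.log N ^ 2 * (C2 * T))) := by
        apply mul_le_mul_of_nonneg_left _ hT0.le
        linarith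
    _ = (8 + 4 * C1 * C2) * N * T ^ 2 / Real.log N ^ 2 := by field_simp; ring

/-- truncated counts -/
def SZ (Z T n : ℕ) : ℕ := pc n (min (n + T) Z)

lemma SZ_zero {Z T n : ℕ} (h : Z ≤ n) : SZ Z T n = 0 := by
  unfold SZ pc
  rw [Finset.Ioc_eq_empty (by omega), Finset.filter_empty, Finset.card_empty]

lemma SZ_eq {Z T n : ℕ} (h : n + T ≤ Z) : SZ Z T n = pc n (n + T) := by
  unfold SZ
  rw [min_eq_left h]

lemma SZ_le {Z T n : ℕ} : SZ Z T n ≤ pc n (n + T) := pc_mono (min_le_left _ _)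

lemma SZ_double (Z T n : ℕ) : SZ Z (2 * T) n = SZ Z T n + SZ Z T (n + T) := by
  by_cases h : n + T ≤ Z
  · unfold SZ
    rw [min_eq_left h, add_assoc, ← two_mul]
    exact (pc_add (by omega) (le_min (by omega) h)).symm
  · rw [SZ_zero (n := n + T) (by omega)]
    unfold SZ
    rw [min_eq_right (by omega), min_eq_right (by omega), add_zero]

/-- energy -/
noncomputable def En (Z T : ℕ) : ℝ := ∑ n ∈ Finset.range Z, (SZ Z T n : ℝ) ^ 2

/-- energy of the differences -/
noncomputable def Df (Z T : ℕ) : ℝ :=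
  ∑ n ∈ Finset.range Z, ((SZ Z T n : ℝ) - SZ Z T (n + T)) ^ 2

lemma Df_nonneg (Z T : ℕ) : 0 ≤ Df Z T := Finset.sum_nonneg fun _ _ => sq_nonneg _

lemma En_nonneg (Z T : ℕ) : 0 ≤ En Z T := Finset.sum_nonneg fun _ _ => sq_nonneg _

lemma energy_step (Z T : ℕ) : En Z (2 * T) + Df Z T ≤ 4 * En Z T := by
  have h1 : En Z (2 * T) + Df Z T = 2 * En Z T +
      2 * ∑ n ∈ Finset.range Z, (SZ Z T (n + T) : ℝ) ^ 2 := by
    unfold En Df
    rw [← Finset.sum_add_distrib, Finset.mul_sum, Finset.mul_sum, ← Finset.sum_add_distrib]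
    apply Finset.sum_congr rfl
    intro n _
    rw [SZ_double]
    push_cast
    ring
  have h2 : ∑ n ∈ Finset.range Z, (SZ Z T (n + T) : ℝ) ^ 2 ≤ En Z T := by
    have h3 : ∑ n ∈ Finset.range Z, (SZ Z T (n + T) : ℝ) ^ 2 =
        ∑ n ∈ Finset.Ico T (Z + T), (SZ Z T n : ℝ) ^ 2 := by
      rw [Finset.sum_Ico_eq_sum_range]
      have : Z + T - T = Z := by omega
      rw [this]
      apply Finset.sum_congr rfl
      intro n _
      rw [add_comm T n]
    rw [h3]
    have h4 : ∑ n ∈ Finset.Ico T (Z + T), (SZ Z T n : ℝ) ^ 2 ≤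
        ∑ n ∈ Finset.range (Z + T), (SZ Z T n : ℝ) ^ 2 := by
      apply Finset.sum_le_sum_of_subset_of_nonneg
      · intro n hn
        rw [Finset.mem_Ico] at hn
        exact Finset.mem_range.mpr hn.2
      · intro _ _ _; positivity
    have h5 : ∑ n ∈ Finset.range (Z + T), (SZ Z T n : ℝ) ^ 2 = En Z T := by
      unfold En
      symm
      apply Finset.sum_subset
      · intro n hn
        rw [Finset.mem_range] at hn ⊢
        omega
      · intro n _ hn
        rw [Finset.mem_range] at hn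
        rw [SZ_zero (by omega)]
        simp
    linarith
  linarith

/-- telescoping of the normalised energies -/
lemma energy_sum (Z a k : ℕ) :
    ∑ i ∈ Finset.range k, Df Z (2 ^ (a + i)) / 4 ^ (a + i + 1) + En Z (2 ^ (a + k)) / 4 ^ (a + k) ≤
      En Z (2 ^ a) / 4 ^ a := by
  induction k with
  | zero => simp
  | succ k ih =>
    rw [Finset.sum_range_succ]
    have h1 := energy_step Z (2 ^ (a + k))
    have h2 : 2 * 2 ^ (a + k) = 2 ^ (a + (k + 1)) := by rw [← add_assoc, pow_succ]; ring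
    rw [h2] at h1
    have h3 : (En Z (2 ^ (a + (k + 1))) + Df Z (2 ^ (a + k))) / 4 ^ (a + k + 1) ≤
        4 * En Z (2 ^ (a + k)) / 4 ^ (a + k + 1) := by
      apply div_le_div_of_nonneg_right h1 (by positivity)
    have h4 : 4 * En Z (2 ^ (a + k)) / 4 ^ (a + k + 1) = En Z (2 ^ (a + k)) / 4 ^ (a + k) := by
      rw [pow_succ]; field_simp
    rw [add_div, h4] at h3
    have h5 : a + (k + 1) = a + k + 1 := by omega
    rw [h5] at h3 ⊢
    linarith

/-- densities on nested dyadic intervals -/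
lemma nested (F : ℕ → ℕ → ℝ) (hF : ∀ i y, F (i + 1) y = (F i y + F i (y + 2 ^ i)) / 2)
    (b : ℕ) (t : ℝ) (m : ℕ) : ∀ n : ℕ,
    (∀ i, b ≤ i → i < b + m → ∀ q, q * 2 ^ (i + 1) < 2 ^ (b + m) →
      |F i (n + q * 2 ^ (i + 1)) - F i (n + q * 2 ^ (i + 1) + 2 ^ i)| ≤ t) →
    ∀ r, r < 2 ^ m → |F b (n + r * 2 ^ b) - F (b + m) n| ≤ m * t / 2 := by
  induction m with
  | zero =>
    intro n _ r hr
    have : r = 0 := by simpa using hr
    subst this
    simp
  | succ m ih =>
    intro n h r hr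
    have ht := h (b + m) (by omega) (by omega) 0 (by simp)
    simp only [zero_mul, add_zero] at ht
    have htop := hF (b + m) n
    have hpow : 2 ^ (m + 1) = 2 ^ m + 2 ^ m := by rw [pow_succ]; ring
    have hpow2 : 2 ^ (b + (m + 1)) = 2 ^ (b + m) + 2 ^ (b + m) := by
      rw [← add_assoc, pow_succ]; ring
    rcases Nat.lt_or_ge r (2 ^ m) with hlt | hge
    · -- left half
      have h1 := ih n (fun i hi1 hi2 q hq => h i hi1 (by omega) q (by omega)) r hlt
      have h2 : |F (b + m) n - F (b + (m + 1)) n| ≤ t / 2 := by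
        rw [← add_assoc, htop]
        have : F (b + m) n - (F (b + m) n + F (b + m) (n + 2 ^ (b + m))) / 2 =
          (F (b + m) n - F (b + m) (n + 2 ^ (b + m))) / 2 := by ring
        rw [this, abs_div, abs_of_pos (by norm_num : (0 : ℝ) < 2)]
        linarith
      have h3 : F b (n + r * 2 ^ b) - F (b + (m + 1)) n =
          (F b (n + r * 2 ^ b) - F (b + m) n) + (F (b + m) n - F (b + (m + 1)) n) := by ring
      rw [h3]
      refine (abs_add_le _ _).trans ?_
      push_cast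
      linarith
    · -- right half
      obtain ⟨r', rfl⟩ : ∃ r', r = 2 ^ m + r' := ⟨r - 2 ^ m, by omega⟩
      have h1 := ih (n + 2 ^ (b + m)) (fun i hi1 hi2 q hq => by
        have e1 : 2 ^ (b + m) = 2 ^ (b + m - (i + 1)) * 2 ^ (i + 1) := by
          rw [← pow_add]; congr 1; omega
        have e2 : n + 2 ^ (b + m) + q * 2 ^ (i + 1) =
            n + (q + 2 ^ (b + m - (i + 1))) * 2 ^ (i + 1) := by
          rw [add_mul, ← e1]; ring
        have h4 := h i hi1 (by omega) (q + 2 ^ (b + m - (i + 1))) (by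
          rw [add_mul, ← e1]; omega)
        rw [e2]
        exact h4) r' (by omega)
      have e3 : n + 2 ^ (b + m) + r' * 2 ^ b = n + (2 ^ m + r') * 2 ^ b := by
        rw [add_mul, ← pow_add, add_comm m b]; ring
      rw [e3] at h1
      have h2 : |F (b + m) (n + 2 ^ (b + m)) - F (b + (m + 1)) n| ≤ t / 2 := by
        rw [← add_assoc, htop]
        have : F (b + m) (n + 2 ^ (b + m)) - (F (b + m) n + F (b + m) (n + 2 ^ (b + m))) / 2 =
          -(F (b + m) n - F (b + m) (n + 2 ^ (b + m))) / 2 := by ring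
        rw [this, abs_div, abs_neg, abs_of_pos (by norm_num : (0 : ℝ) < 2)]
        linarith
      have h3 : F b (n + (2 ^ m + r') * 2 ^ b) - F (b + (m + 1)) n =
          (F b (n + (2 ^ m + r') * 2 ^ b) - F (b + m) (n + 2 ^ (b + m))) +
          (F (b + m) (n + 2 ^ (b + m)) - F (b + (m + 1)) n) := by ring
      rw [h3]
      refine (abs_add_le _ _).trans ?_
      push_cast
      linarith

end Pool.Agent.H357R2.SI
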