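import Pool.Agent.H357R2.SI.Moment
import Pool.Agent.H357R2.SI.Pareto

set_option autoImplicit false

open Filter Topology

namespace Pool.Agent.H357R2.SI

/-- number of primes in `[a, b)` -/
def pcl (a b : ℕ) : ℕ := ((Finset.Ico a b).filter Nat.Prime).card

lemma pcl_add {a b c : ℕ} (hab : a ≤ b) (hbc : b ≤ c) : pcl a b + pcl b c = pcl a c := by
  unfold pcl
  rw [← Finset.card_union_of_disjoint]
  · congr 1
    rw [← Finset.filter_union, Finset.Ico_union_Ico_eq_Ico hab hbc]
  · apply Finset.disjoint_filter_filter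
    rw [Finset.disjoint_left]
    intro x hx hx'
    rw [Finset.mem_Ico] at hx hx'
    omega

lemma pcl_mono {a b c : ℕ} (hbc : b ≤ c) : pcl a b ≤ pcl a c := by
  unfold pcl
  exact Finset.card_le_card (Finset.filter_subset_filter _ (Finset.Ico_subset_Ico_right hbc))

lemma pcl_succ_le (a : ℕ) : pcl a (a + 1) ≤ 1 := by
  unfold pcl
  refine (Finset.card_filter_le _ _).trans ?_
  rw [Nat.card_Ico]
  omega

open Classical in
/-- Greedy covering from the left: many left endpoints of dense windows. -/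
lemma gc_lower (c : ℝ) (hc : 0 < c) (K : ℕ) (d : ℕ) : ∀ a b : ℕ, b - a = d → a ≤ b →
    (pcl a b : ℝ) ≤ c * ((b : ℝ) - a + K) + (((Finset.Ico a b).filter (fun n => ∀ H : ℕ, 1 ≤ H →
      H ≤ K → c * H ≤ pcl n (n + H))).card : ℝ) := by
  induction d using Nat.strong_induction_on with
  | _ d ih =>
    intro a b hd hab
    have hK0 : (0 : ℝ) ≤ K := Nat.cast_nonneg K
    rcases Nat.eq_or_lt_of_le hab with rfl | hlt
    · simp only [pcl, Finset.Ico_self, Finset.filter_empty, Finset.card_empty, Nat.cast_zero,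
        sub_self, zero_add, add_zero]
      positivity
    have hltr : (a : ℝ) + 1 ≤ b := by exact_mod_cast hlt
    by_cases hgood : ∀ H : ℕ, 1 ≤ H → H ≤ K → c * H ≤ pcl a (a + H)
    · have h1 := ih (b - (a + 1)) (by omega) (a + 1) b rfl hlt
      have h2 := pcl_add (a := a) (b := a + 1) (c := b) (by omega) (by omega)
      have h3 := pcl_succ_le a
      have h4 : (pcl a b : ℝ) ≤ 1 + pcl (a + 1) b := by
        rw [← h2]; push_cast
        have : (pcl a (a + 1) : ℝ) ≤ 1 := by exact_mod_cast h3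
        linarith
      have h5 : ((Finset.Ico a b).filter (fun n => ∀ H : ℕ, 1 ≤ H →
          H ≤ K → c * H ≤ pcl n (n + H))).card = ((Finset.Ico (a + 1) b).filter (fun n => ∀ H : ℕ,
          1 ≤ H → H ≤ K → c * H ≤ pcl n (n + H))).card + 1 := by
        have h6 : Finset.Ico a b = insert a (Finset.Ico (a + 1) b) :=
          (Finset.insert_Ico_add_one_left_eq_Ico hlt).symm
        rw [h6, Finset.filter_insert, if_pos hgood, Finset.card_insert_of_notMem]
        simp
      rw [h5]
      push_cast at h1 ⊢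
      nlinarith
    · push Not at hgood
      obtain ⟨H, hH1, hHK, hH⟩ := hgood
      have hHKr : (H : ℝ) ≤ K := by exact_mod_cast hHK
      by_cases hend : b ≤ a + H
      · have h1 : (pcl a b : ℝ) ≤ pcl a (a + H) := by exact_mod_cast pcl_mono hend
        have h2 : 0 ≤ (((Finset.Ico a b).filter (fun n => ∀ H : ℕ, 1 ≤ H →
          H ≤ K → c * H ≤ pcl n (n + H))).card : ℝ) := Nat.cast_nonneg _
        have h3 : c * H ≤ c * ((b : ℝ) - a + K) := by
          apply mul_le_mul_of_nonneg_left _ hc.le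
          linarith
        linarith
      · push Not at hend
        have h1 := ih (b - (a + H)) (by omega) (a + H) b rfl hend.le
        have h2 := pcl_add (a := a) (b := a + H) (c := b) (by omega) hend.le
        have h3 : (pcl a b : ℝ) = pcl a (a + H) + pcl (a + H) b := by exact_mod_cast h2.symm
        have h4 : ((Finset.Ico (a + H) b).filter (fun n => ∀ H : ℕ, 1 ≤ H →
          H ≤ K → c * H ≤ pcl n (n + H))).card ≤ ((Finset.Ico a b).filter (fun n => ∀ H : ℕ, 1 ≤ H →
          H ≤ K → c * H ≤ pcl n (n + H))).card := by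
          apply Finset.card_le_card
          apply Finset.filter_subset_filter
          apply Finset.Ico_subset_Ico_left
          omega
        have h5 : (((Finset.Ico (a + H) b).filter (fun n => ∀ H : ℕ, 1 ≤ H →
          H ≤ K → c * H ≤ pcl n (n + H))).card : ℝ) ≤ (((Finset.Ico a b).filter (fun n => ∀ H : ℕ,
          1 ≤ H → H ≤ K → c * H ≤ pcl n (n + H))).card : ℝ) := by exact_mod_cast h4
        rw [h3]
        push_cast at h1
        nlinarith

open Classical in
/-- Points just to the left of a sparse-enough set of primes: second moment method. -/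
lemma moment_method (G : Finset ℕ) (X N T : ℕ) (hG : ∀ g ∈ G, X + T ≤ g ∧ g < N ∧ g.Prime)
    (B : ℝ) (hB : 0 < B)
    (hmom : ∑ n ∈ Finset.range N, ((pc n (n + T) : ℝ)) ^ 2 ≤ B) :
    ((T : ℝ) * G.card) ^ 2 / B ≤
      (((Finset.Ico X N).filter (fun m => ∃ g ∈ G, m < g ∧ g ≤ m + T)).card : ℝ) := by
  set A := (Finset.Ico X N).filter (fun m => ∃ g ∈ G, m < g ∧ g ≤ m + T) with hA
  let r : ℕ → ℕ := fun m => (G.filter (fun g => m < g ∧ g ≤ m + T)).card
  -- total mass
  have h1 : T * G.card ≤ ∑ m ∈ A, r m := by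
    have h2 : ∑ m ∈ Finset.Ico X N, r m = ∑ m ∈ A, r m := by
      rw [hA, Finset.sum_filter]
      apply Finset.sum_congr rfl
      intro m _
      split_ifs with h
      · rfl
      · simp only [r]
        rw [Finset.card_eq_zero, Finset.filter_eq_empty_iff]
        intro g hg hh
        exact h ⟨g, hg, hh⟩
    rw [← h2]
    simp only [r, Finset.card_filter]
    rw [Finset.sum_comm]
    have h3 : ∀ g ∈ G, T ≤ ∑ m ∈ Finset.Ico X N, if m < g ∧ g ≤ m + T then 1 else 0 := by
      intro g hg
      obtain ⟨hg1, hg2, -⟩ := hG g hg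
      rw [← Finset.card_filter]
      have h4 : Finset.Ico (g - T) g ⊆ (Finset.Ico X N).filter (fun m => m < g ∧ g ≤ m + T) := by
        intro m hm
        rw [Finset.mem_Ico] at hm
        rw [Finset.mem_filter, Finset.mem_Ico]
        omega
      have h5 := Finset.card_le_card h4
      rw [Nat.card_Ico] at h5
      omega
    calc T * G.card = ∑ _g ∈ G, T := by rw [Finset.sum_const, smul_eq_mul, mul_comm]
      _ ≤ _ := Finset.sum_le_sum h3
  have h1r : (T : ℝ) * G.card ≤ ∑ m ∈ A, (r m : ℝ) := by exact_mod_cast h1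
  -- second moment
  have h2 : ∑ m ∈ A, (r m : ℝ) ^ 2 ≤ B := by
    refine le_trans ?_ hmom
    have h3 : A ⊆ Finset.range N := by
      intro m hm
      rw [hA, Finset.mem_filter, Finset.mem_Ico] at hm
      exact Finset.mem_range.mpr hm.1.2
    refine (Finset.sum_le_sum (fun m _ => ?_)).trans
      (Finset.sum_le_sum_of_subset_of_nonneg h3 (fun _ _ _ => by positivity))
    have h4 : r m ≤ pc m (m + T) := by
      simp only [r, pc]
      apply Finset.card_le_card
      intro g hg
      rw [Finset.mem_filter] at hg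
      rw [Finset.mem_filter, Finset.mem_Ioc]
      exact ⟨hg.2, (hG g hg.1).2.2⟩
    have h5 : (r m : ℝ) ≤ pc m (m + T) := by exact_mod_cast h4
    gcongr
  -- Cauchy-Schwarz
  have h3 : (∑ m ∈ A, (r m : ℝ)) ^ 2 ≤ (A.card : ℝ) * ∑ m ∈ A, (r m : ℝ) ^ 2 :=
    sq_sum_le_card_mul_sum_sq
  rw [div_le_iff₀ hB]
  calc ((T : ℝ) * G.card) ^ 2 ≤ (∑ m ∈ A, (r m : ℝ)) ^ 2 := by gcongr
    _ ≤ (A.card : ℝ) * ∑ m ∈ A, (r m : ℝ) ^ 2 := h3
    _ ≤ (A.card : ℝ) * B := by gcongr

end Pool.Agent.H357R2.SI
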