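import Pool.Agent.H357R2.SI.Common

open Filter Topology

namespace Pool.Agent.H357R2.SI

open Classical in
/-- Greedy covering: points with a dense forward window are rare. -/
lemma gc_upper (c : ℝ) (hc : 0 < c) (K : ℕ) (d : ℕ) : ∀ a b : ℕ, b - a = d → a ≤ b →
    c * (((Finset.Ico a b).filter (fun n => ∃ H : ℕ, 1 ≤ H ∧ H ≤ K ∧
      c * H ≤ pc n (n + H))).card : ℝ) ≤ pc a (b + K) := by
  induction d using Nat.strong_induction_on with
  | _ d ih =>
    intro a b hd hab
    rcases Nat.eq_or_lt_of_le hab with rfl | hlt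
    · simp
    by_cases hbad : ∃ H : ℕ, 1 ≤ H ∧ H ≤ K ∧ c * H ≤ pc a (a + H)
    · obtain ⟨H, hH1, hHK, hH⟩ := hbad
      by_cases hend : b ≤ a + H
      · have h1 : (((Finset.Ico a b).filter (fun n => ∃ H : ℕ, 1 ≤ H ∧ H ≤ K ∧
            c * H ≤ pc n (n + H))).card : ℝ) ≤ H := by
          have h2 := Finset.card_filter_le (Finset.Ico a b) (fun n => ∃ H : ℕ, 1 ≤ H ∧ H ≤ K ∧
            c * H ≤ pc n (n + H))
          rw [Nat.card_Ico] at h2
          exact_mod_cast h2.trans (by omega)
        have h3 : (pc a (a + H) : ℝ) ≤ pc a (b + K) := by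
          exact_mod_cast pc_mono (by omega)
        calc _ ≤ c * H := mul_le_mul_of_nonneg_left h1 hc.le
          _ ≤ _ := hH.trans h3
      · push Not at hend
        have h1 := ih (b - (a + H)) (by omega) (a + H) b rfl hend.le
        have h2 : Finset.Ico a b = Finset.Ico a (a + H) ∪ Finset.Ico (a + H) b :=
          (Finset.Ico_union_Ico_eq_Ico (by omega) hend.le).symm
        rw [h2, Finset.filter_union]
        have h3 := Finset.card_union_le ((Finset.Ico a (a + H)).filter
          (fun n => ∃ H : ℕ, 1 ≤ H ∧ H ≤ K ∧ c * H ≤ pc n (n + H)))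
          ((Finset.Ico (a + H) b).filter
          (fun n => ∃ H : ℕ, 1 ≤ H ∧ H ≤ K ∧ c * H ≤ pc n (n + H)))
        have h4 := Finset.card_filter_le (Finset.Ico a (a + H)) (fun n => ∃ H : ℕ, 1 ≤ H ∧ H ≤ K ∧
            c * H ≤ pc n (n + H))
        rw [Nat.card_Ico] at h4
        have h5 : (((Finset.Ico a (a + H)).filter
          (fun n => ∃ H : ℕ, 1 ≤ H ∧ H ≤ K ∧ c * H ≤ pc n (n + H)) ∪
          (Finset.Ico (a + H) b).filter
          (fun n => ∃ H : ℕ, 1 ≤ H ∧ H ≤ K ∧ c * H ≤ pc n (n + H))).card : ℝ) ≤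
          H + (((Finset.Ico (a + H) b).filter
          (fun n => ∃ H : ℕ, 1 ≤ H ∧ H ≤ K ∧ c * H ≤ pc n (n + H))).card : ℝ) := by
          have h6 : a + H - a = H := by omega
          rw [h6] at h4
          exact_mod_cast h3.trans (by omega)
        have h7 := pc_add (a := a) (b := a + H) (c := b + K) (by omega) (by omega)
        have h8 : (pc a (b + K) : ℝ) = pc a (a + H) + pc (a + H) (b + K) := by
          exact_mod_cast h7.symm
        rw [h8]
        have h9 := mul_le_mul_of_nonneg_left h5 hc.le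
        rw [mul_add] at h9
        linarith
    · have h1 := ih (b - (a + 1)) (by omega) (a + 1) b rfl hlt
      have h2 : (Finset.Ico a b).filter (fun n => ∃ H : ℕ, 1 ≤ H ∧ H ≤ K ∧ c * H ≤ pc n (n + H)) =
          (Finset.Ico (a + 1) b).filter
            (fun n => ∃ H : ℕ, 1 ≤ H ∧ H ≤ K ∧ c * H ≤ pc n (n + H)) := by
        ext n
        simp only [Finset.mem_filter, Finset.mem_Ico]
        constructor
        · rintro ⟨⟨h3, h4⟩, h5⟩
          refine ⟨⟨?_, h4⟩, h5⟩
          by_contra h6
          have : n = a := by omega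
          rw [this] at h5
          exact hbad h5
        · rintro ⟨⟨h3, h4⟩, h5⟩
          exact ⟨⟨by omega, h4⟩, h5⟩
      rw [h2]
      refine h1.trans ?_
      exact_mod_cast pc_anti (by omega)

/-- the workload of the queue fed by the primes below `N`, read from the right -/
noncomputable def wl (c : ℝ) (N : ℕ) : ℕ → ℝ
  | 0 => 0
  | k + 1 => max 0 ((if (N - k).Prime then 1 else 0) - c + wl c N k)

lemma wl_nonneg (c : ℝ) (N k : ℕ) : 0 ≤ wl c N k := by
  cases k with
  | zero => exact le_rfl
  | succ k => exact le_max_left _ _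

lemma pc_pred_succ {N k : ℕ} (hk : k < N) :
    (pc (N - (k + 1)) (N - k) : ℝ) = if (N - k).Prime then 1 else 0 := by
  have h : N - k = N - (k + 1) + 1 := by omega
  have h2 := pc_succ (N - (k + 1))
  rw [← h] at h2
  rw [h2]
  split_ifs <;> simp

lemma wl_pos (c : ℝ) (N : ℕ) (k : ℕ) (hk : k ≤ N) (hpos : 0 < wl c N k) :
    ∃ H : ℕ, 1 ≤ H ∧ H ≤ k ∧ wl c N k = pc (N - k) (N - k + H) - c * H := by
  induction k with
  | zero => exact absurd hpos (lt_irrefl _)
  | succ k ih =>
    have h1 : wl c N (k + 1) = (if (N - k).Prime then 1 else 0) - c + wl c N k := by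
      have h2 : wl c N (k + 1) = max 0 ((if (N - k).Prime then 1 else 0) - c + wl c N k) := rfl
      rw [h2] at hpos ⊢
      rcases max_cases (0 : ℝ) ((if (N - k).Prime then 1 else 0) - c + wl c N k) with h3 | h3
      · rw [h3.1] at hpos
        exact absurd hpos (lt_irrefl _)
      · exact h3.1
    have h4 := pc_pred_succ (N := N) (k := k) (by omega)
    rcases (wl_nonneg c N k).eq_or_lt with h0 | h0
    · refine ⟨1, le_rfl, by omega, ?_⟩
      rw [h1, ← h0]
      have h5 : N - (k + 1) + 1 = N - k := by omega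
      rw [h5, h4]
      push_cast
      ring
    · obtain ⟨H, hH1, hHk, hH⟩ := ih (by omega) h0
      refine ⟨H + 1, by omega, by omega, ?_⟩
      have h5 : N - (k + 1) + (H + 1) = N - k + H := by omega
      rw [h5, h1, hH, ← h4]
      have h6 := pc_add (a := N - (k + 1)) (b := N - k) (c := N - k + H) (by omega) (by omega)
      have h7 : (pc (N - (k + 1)) (N - k + H) : ℝ) = pc (N - (k + 1)) (N - k) +
          pc (N - k) (N - k + H) := by exact_mod_cast h6.symm
      rw [h7]
      push_cast
      ring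

lemma queue_sum (c : ℝ) (hc : 0 < c) (N : ℕ) (K : ℕ) (hK : K ≤ N) :
    (pc (N - K) N : ℝ) - wl c N K ≤
      c * (((Finset.Icc 1 K).filter (fun k => 0 < wl c N k)).card : ℝ) +
      c * ((pc (N - K) N : ℝ) - (if 0 < wl c N K then 1 else 0)) := by
  induction K with
  | zero => simp [pc_self, wl]
  | succ K ih =>
    have h1 := ih (by omega)
    have h2 := pc_add (a := N - (K + 1)) (b := N - K) (c := N) (by omega) (by omega)
    have h3 : (pc (N - (K + 1)) N : ℝ) = (if (N - K).Prime then 1 else 0) + pc (N - K) N := by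
      rw [← h2]; push_cast
      rw [pc_pred_succ (by omega)]
    have h4 : (Finset.Icc 1 (K + 1)).filter (fun k => 0 < wl c N k) =
        if 0 < wl c N (K + 1) then insert (K + 1) ((Finset.Icc 1 K).filter (fun k => 0 < wl c N k))
        else (Finset.Icc 1 K).filter (fun k => 0 < wl c N k) := by
      rw [← Finset.insert_Icc_right_eq_Icc_add_one (by omega), Finset.filter_insert]
    have h5 : (((Finset.Icc 1 (K + 1)).filter (fun k => 0 < wl c N k)).card : ℝ) =
        (((Finset.Icc 1 K).filter (fun k => 0 < wl c N k)).card : ℝ) +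
        (if 0 < wl c N (K + 1) then 1 else 0) := by
      rw [h4]
      split_ifs with h
      · rw [Finset.card_insert_of_notMem]
        · push_cast; ring
        · simp
      · simp
    have h6 : ((if (N - K).Prime then 1 else 0 : ℝ)) - c + wl c N K ≤ wl c N (K + 1) :=
      le_max_right _ _
    have h7 := wl_nonneg c N K
    have h8 := wl_nonneg c N (K + 1)
    rw [h3, h5]
    by_cases hp : (N - K).Prime
    · rw [if_pos hp] at h6 ⊢
      split_ifs at h1 ⊢ <;> nlinarith
    · rw [if_neg hp] at h6 ⊢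
      by_cases hw : 0 < wl c N K
      · rw [if_pos hw] at h1
        split_ifs <;> nlinarith
      · rw [if_neg hw] at h1
        have hw0 : wl c N K = 0 := le_antisymm (not_lt.mp hw) h7
        rw [hw0] at h1
        split_ifs <;> nlinarith

open Classical in
/-- Lower bound for the number of points with a dense forward window. -/
lemma queue_lower (c : ℝ) (hc : 0 < c) (X N : ℕ) (hX : X ≤ N) (V : ℝ) (hV0 : 0 ≤ V)
    (hV : ∀ H : ℕ, 1 ≤ H → X + H ≤ N → (pc X (X + H) : ℝ) - c * H ≤ V) :
    (1 - c) * pc X N - V ≤ c * (((Finset.Ico X N).filter (fun n => ∃ H : ℕ, 1 ≤ H ∧ n + H ≤ N ∧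
      c * H < pc n (n + H))).card : ℝ) := by
  have h1 := queue_sum c hc N (N - X) (by omega)
  have h2 : N - (N - X) = X := by omega
  rw [h2] at h1
  have h3 : wl c N (N - X) ≤ V := by
    rcases (wl_nonneg c N (N - X)).eq_or_lt with h0 | h0
    · rw [← h0]; exact hV0
    · obtain ⟨H, hH1, hHk, hH⟩ := wl_pos c N (N - X) (by omega) h0
      rw [h2] at hH
      rw [hH]
      exact hV H hH1 (by omega)
  have h4 : ((Finset.Icc 1 (N - X)).filter (fun k => 0 < wl c N k)).card ≤
      ((Finset.Ico X N).filter (fun n => ∃ H : ℕ, 1 ≤ H ∧ n + H ≤ N ∧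
      c * H < pc n (n + H))).card := by
    apply Finset.card_le_card_of_injOn (fun k => N - k)
    · intro k hk
      rw [Finset.mem_coe, Finset.mem_filter, Finset.mem_Icc] at hk
      obtain ⟨⟨hk1, hk2⟩, hk3⟩ := hk
      rw [Finset.mem_coe, Finset.mem_filter, Finset.mem_Ico]
      beta_reduce
      refine ⟨⟨by omega, by omega⟩, ?_⟩
      obtain ⟨H, hH1, hHk, hH⟩ := wl_pos c N k (by omega) hk3
      refine ⟨H, hH1, by omega, ?_⟩
      linarith
    · intro k hk k' hk' h
      rw [Finset.mem_coe, Finset.mem_filter, Finset.mem_Icc] at hk hk'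
      simp only at h
      omega
  have h5 : (((Finset.Icc 1 (N - X)).filter (fun k => 0 < wl c N k)).card : ℝ) ≤
      (((Finset.Ico X N).filter (fun n => ∃ H : ℕ, 1 ≤ H ∧ n + H ≤ N ∧
      c * H < pc n (n + H))).card : ℝ) := by exact_mod_cast h4
  have h6 := mul_le_mul_of_nonneg_left h5 hc.le
  have h7 : c * ((pc X N : ℝ) - (if 0 < wl c N (N - X) then 1 else 0)) ≤ c * pc X N := by
    apply mul_le_mul_of_nonneg_left _ hc.le
    split_ifs <;> linarith
  linarith

end Pool.Agent.H357R2.SI
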