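import Pool.Agent.H357R2.SI.PairFinal
import Pool.Agent.H357R2.SI.Queue

set_option autoImplicit false

open Filter Topology

namespace Pool.Agent.H357R2.SI

/-- primes up to `Z` -/
def PZ (Z : ℕ) : Finset ℕ := (Finset.Ioc 0 Z).filter Nat.Prime

lemma mem_PZ {Z p : ℕ} : p ∈ PZ Z ↔ p.Prime ∧ p ≤ Z := by
  unfold PZ
  rw [Finset.mem_filter, Finset.mem_Ioc]
  constructor
  · rintro ⟨⟨_, h1⟩, h2⟩; exact ⟨h2, h1⟩
  · rintro ⟨h1, h2⟩; exact ⟨⟨h1.pos, h2⟩, h1⟩

/-- pairs of primes at distance less than `T` -/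
lemma close_pairs (Z T : ℕ) :
    (((PZ Z) ×ˢ (PZ Z)).filter (fun x => x.1 < x.2 + T ∧ x.2 < x.1 + T)).card ≤
      (PZ Z).card + 2 * ∑ h ∈ Finset.Icc 1 T,
        ((Finset.Ioc 0 Z).filter (fun n => n.Prime ∧ (n + h).Prime)).card := by
  classical
  set D := (PZ Z).image (fun p => (p, p)) with hD
  set U := (Finset.Icc 1 T).biUnion (fun h =>
    ((Finset.Ioc 0 Z).filter (fun n => n.Prime ∧ (n + h).Prime)).image (fun p => (p, p + h))) with hU
  set V := (Finset.Icc 1 T).biUnion (fun h =>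
    ((Finset.Ioc 0 Z).filter (fun n => n.Prime ∧ (n + h).Prime)).image (fun p => (p + h, p))) with hV
  have hsub : ((PZ Z) ×ˢ (PZ Z)).filter (fun x => x.1 < x.2 + T ∧ x.2 < x.1 + T) ⊆ D ∪ (U ∪ V) := by
    rintro ⟨p, q⟩ hx
    rw [Finset.mem_filter, Finset.mem_product, mem_PZ, mem_PZ] at hx
    obtain ⟨⟨⟨hp, hpZ⟩, hq, hqZ⟩, h1, h2⟩ := hx
    simp only at hp hpZ hq hqZ h1 h2
    rw [Finset.mem_union, Finset.mem_union]
    rcases lt_trichotomy p q with h | h | h
    · right; left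
      rw [hU, Finset.mem_biUnion]
      refine ⟨q - p, Finset.mem_Icc.mpr ⟨by omega, by omega⟩, ?_⟩
      rw [Finset.mem_image]
      refine ⟨p, ?_, ?_⟩
      · rw [Finset.mem_filter, Finset.mem_Ioc]
        have : p + (q - p) = q := by omega
        rw [this]
        exact ⟨⟨hp.pos, hpZ⟩, hp, hq⟩
      · have : p + (q - p) = q := by omega
        rw [this]
    · left
      rw [hD, Finset.mem_image]
      exact ⟨p, mem_PZ.mpr ⟨hp, hpZ⟩, by rw [h]⟩
    · right; right
      rw [hV, Finset.mem_biUnion]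
      refine ⟨p - q, Finset.mem_Icc.mpr ⟨by omega, by omega⟩, ?_⟩
      rw [Finset.mem_image]
      have : q + (p - q) = p := by omega
      refine ⟨q, ?_, ?_⟩
      · rw [Finset.mem_filter, Finset.mem_Ioc, this]
        exact ⟨⟨hq.pos, hqZ⟩, hq, hp⟩
      · rw [this]
  have hDc : D.card ≤ (PZ Z).card := Finset.card_image_le
  have hUc : U.card ≤ ∑ h ∈ Finset.Icc 1 T,
        ((Finset.Ioc 0 Z).filter (fun n => n.Prime ∧ (n + h).Prime)).card :=
    Finset.card_biUnion_le.trans (Finset.sum_le_sum fun h _ => Finset.card_image_le)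
  have hVc : V.card ≤ ∑ h ∈ Finset.Icc 1 T,
        ((Finset.Ioc 0 Z).filter (fun n => n.Prime ∧ (n + h).Prime)).card :=
    Finset.card_biUnion_le.trans (Finset.sum_le_sum fun h _ => Finset.card_image_le)
  have h1 := Finset.card_le_card hsub
  have h2 := Finset.card_union_le D (U ∪ V)
  have h3 := Finset.card_union_le U V
  omega

/-- second moment of primes in windows -/
lemma second_moment (N T : ℕ) :
    ∑ n ∈ Finset.range N, (pc n (n + T)) ^ 2 ≤
      T * ((PZ (N + T)).card + 2 * ∑ h ∈ Finset.Icc 1 T,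
        ((Finset.Ioc 0 (N + T)).filter (fun n => n.Prime ∧ (n + h).Prime)).card) := by
  classical
  set Z := N + T with hZ
  set Q := ((PZ Z) ×ˢ (PZ Z)).filter (fun x => x.1 < x.2 + T ∧ x.2 < x.1 + T) with hQ
  have h1 : ∀ n ∈ Finset.range N, (pc n (n + T)) ^ 2 =
      (Q.filter (fun x => (n < x.1 ∧ x.1 ≤ n + T) ∧ (n < x.2 ∧ x.2 ≤ n + T))).card := by
    intro n hn
    rw [Finset.mem_range] at hn
    rw [sq, pc, ← Finset.card_product]
    congr 1
    ext ⟨p, q⟩
    rw [Finset.mem_product, Finset.mem_filter, Finset.mem_filter, Finset.mem_Ioc, Finset.mem_Ioc,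
      Finset.mem_filter, hQ, Finset.mem_filter, Finset.mem_product, mem_PZ, mem_PZ]
    constructor
    · rintro ⟨⟨h1, h2⟩, h3, h4⟩
      simp only at h1 h2 h3 h4 ⊢
      exact ⟨⟨⟨⟨h2, by omega⟩, h4, by omega⟩, by omega, by omega⟩, h1, h3⟩
    · rintro ⟨⟨⟨⟨h1, _⟩, h2, _⟩, _⟩, h3, h4⟩
      exact ⟨⟨h3, h1⟩, h4, h2⟩
  rw [Finset.sum_congr rfl h1]
  have h2 : ∀ x ∈ Q, (∑ n ∈ Finset.range N,
      if (n < x.1 ∧ x.1 ≤ n + T) ∧ (n < x.2 ∧ x.2 ≤ n + T) then 1 else 0) ≤ T := by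
    intro x _
    rw [← Finset.card_filter]
    have : (Finset.range N).filter
        (fun n => (n < x.1 ∧ x.1 ≤ n + T) ∧ (n < x.2 ∧ x.2 ≤ n + T)) ⊆
        Finset.Ico (x.1 - T) x.1 := by
      intro n hn
      rw [Finset.mem_filter] at hn
      rw [Finset.mem_Ico]
      omega
    refine (Finset.card_le_card this).trans ?_
    rw [Nat.card_Ico]
    omega
  have h3 : ∑ n ∈ Finset.range N,
      (Q.filter (fun x => (n < x.1 ∧ x.1 ≤ n + T) ∧ (n < x.2 ∧ x.2 ≤ n + T))).card ≤ T * Q.card := by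
    simp only [Finset.card_filter]
    rw [Finset.sum_comm]
    refine (Finset.sum_le_sum h2).trans ?_
    rw [Finset.sum_const, smul_eq_mul, mul_comm]
  exact h3.trans (Nat.mul_le_mul_left _ (close_pairs Z T))

/-- The second moment is bounded by a constant times `N` when `T` is about `log N`. -/
lemma second_moment_bound : ∃ C : ℝ, 1 ≤ C ∧ ∃ N₀ : ℕ, 3 ≤ N₀ ∧ ∀ N T : ℕ, N₀ ≤ N →
    (T : ℝ) ≤ 2 * Real.log N →
    ∑ n ∈ Finset.range N, ((pc n (n + T) : ℝ)) ^ 2 ≤ C * N := by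
  obtain ⟨C1, hC1, u0, hps⟩ := pair_sieve
  obtain ⟨C2, hC2, hsg⟩ := sum_sg_sq
  obtain ⟨X₀, hX₀, hpnt⟩ := pnt 1 one_pos
  have hlim : ∀ᶠ N : ℕ in atTop, 2 * Real.log N ≤ N := by
    have h := Real.isLittleO_log_id_atTop.bound (by norm_num : (0 : ℝ) < 1 / 2)
    have h2 := (tendsto_natCast_atTop_atTop (R := ℝ)).eventually h
    filter_upwards [h2, eventually_ge_atTop 1] with N hN hN1
    have hN1' : (1 : ℝ) ≤ N := by exact_mod_cast hN1
    rw [Real.norm_of_nonneg (Real.log_nonneg hN1'), id, Real.norm_of_nonneg (by linarith)] at hN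
    linarith
  obtain ⟨N₁, hN₁⟩ := hlim.exists_forall_of_atTop
  refine ⟨8 + 16 * C1 * C2, by nlinarith, max (max X₀ u0) N₁, by omega, ?_⟩
  intro N T hN hT
  have hNX : X₀ ≤ N := (le_max_left _ _).trans ((le_max_left _ _).trans hN)
  have hNu : u0 ≤ N := (le_max_right _ _).trans ((le_max_left _ _).trans hN)
  have hN1 : N₁ ≤ N := (le_max_right _ _).trans hN
  have hTN := hN₁ N hN1
  have hN3 : (3 : ℝ) ≤ N := by exact_mod_cast hX₀.trans hNX
  have hL : 0 < Real.log N := Real.log_pos (by linarith)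
  have hTN' : (T : ℝ) ≤ N := hT.trans hTN
  have hTNn : T ≤ N := by exact_mod_cast hTN'
  have hT0 : (0 : ℝ) ≤ T := Nat.cast_nonneg T
  have h1 : (∑ n ∈ Finset.range N, ((pc n (n + T) : ℝ)) ^ 2) ≤
      T * (((PZ (N + T)).card : ℝ) + 2 * ∑ h ∈ Finset.Icc 1 T,
        (((Finset.Ioc 0 (N + T)).filter (fun n => n.Prime ∧ (n + h).Prime)).card : ℝ)) := by
    exact_mod_cast second_moment N T
  have hlogZ : Real.log N ≤ Real.log ((N + T : ℕ) : ℝ) := by
    apply Real.log_le_log (by linarith)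
    push_cast; linarith
  have hZ2 : (((N + T : ℕ)) : ℝ) ≤ 2 * N := by push_cast; linarith
  -- primes
  have h2 : ((PZ (N + T)).card : ℝ) ≤ 4 * N / Real.log N := by
    have h3 : (PZ (N + T)).card = Nat.primeCounting (N + T) := pc_zero (N + T)
    rw [h3]
    refine (hpnt (N + T) (by omega)).2.trans ?_
    apply div_le_div₀ (by positivity) _ hL hlogZ
    linarith
  -- pairs
  have h3 : ∀ h ∈ Finset.Icc 1 T,
      (((Finset.Ioc 0 (N + T)).filter (fun n => n.Prime ∧ (n + h).Prime)).card : ℝ) ≤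
      2 * C1 * N / Real.log N ^ 2 * sg h ^ 2 := by
    intro h hh
    rw [Finset.mem_Icc] at hh
    have h4 := hps h 0 (N + T) (by omega) (by omega)
    rw [zero_add] at h4
    refine h4.trans ?_
    calc C1 * sg h ^ 2 * ((N + T : ℕ) : ℝ) / Real.log ((N + T : ℕ) : ℝ) ^ 2
        ≤ C1 * sg h ^ 2 * (2 * N) / Real.log N ^ 2 := by
          apply div_le_div₀ (by positivity) _ (by positivity)
          · gcongr
          · gcongr
      _ = 2 * C1 * N / Real.log N ^ 2 * sg h ^ 2 := by ring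
  have h4 : ∑ h ∈ Finset.Icc 1 T,
      (((Finset.Ioc 0 (N + T)).filter (fun n => n.Prime ∧ (n + h).Prime)).card : ℝ) ≤
      2 * C1 * N / Real.log N ^ 2 * (C2 * T) := by
    refine (Finset.sum_le_sum h3).trans ?_
    rw [← Finset.mul_sum]
    exact mul_le_mul_of_nonneg_left (hsg T) (by positivity)
  have h5 : 2 * C1 * N / Real.log N ^ 2 * (C2 * T) ≤ 4 * C1 * C2 * N / Real.log N := by
    have h6 : C2 * T ≤ C2 * (2 * Real.log N) := by gcongr
    calc _ ≤ 2 * C1 * N / Real.log N ^ 2 * (C2 * (2 * Real.log N)) := by gcongr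
      _ = 4 * C1 * C2 * N / Real.log N := by field_simp; ring
  calc _ ≤ _ := h1
    _ ≤ (2 * Real.log N) * (4 * N / Real.log N + 2 * (4 * C1 * C2 * N / Real.log N)) := by
        apply mul_le_mul hT _ (by positivity) (by positivity)
        have := h4.trans h5
        linarith
    _ = (8 + 16 * C1 * C2) * N := by field_simp; ring

end Pool.Agent.H357R2.SI
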