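import Pool.Agent.Helper601.HKa14

set_option autoImplicit false

namespace Pool.Agent.H357R2.SI

open Pool.Agent.Helper601.HK (count_two_class)

theorem count_pair (s : ℕ) (R : Finset ℕ) (hR : ∀ r ∈ R, r.Prime) (hRs : ∀ r ∈ R, ¬ r ∣ s)
    (a u d : ℕ) (hd : Squarefree d) :
    |(((Finset.Ioc a (a + u)).filter
        (fun n : ℕ => ∀ p ∈ d.primeFactors, p ∣ n ∨ (p ∈ R ∧ p ∣ n + s))).card : ℝ) -
      2 ^ (R.filter (fun r : ℕ => r ∣ d)).card * ((u : ℝ) / d)| ≤
      2 ^ (R.filter (fun r : ℕ => r ∣ d)).card := by
  classical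
  have hd0 : d ≠ 0 := hd.ne_zero
  set Rd := R.filter (fun r : ℕ => r ∣ d) with hRd
  set S := (Finset.Ioc a (a + u)).filter
        (fun n : ℕ => ∀ p ∈ d.primeFactors, p ∣ n ∨ (p ∈ R ∧ p ∣ n + s)) with hS
  -- residue classes
  have hv : ∀ B : Finset ℕ, ∃ v : ℕ, ∀ p ∈ d.primeFactors,
      v ≡ (if p ∈ B then p - s % p else 0) [MOD p] := by
    intro B
    obtain ⟨k, hk⟩ := Nat.chineseRemainderOfFinset (fun p => if p ∈ B then p - s % p else 0)
      (fun p => p) d.primeFactors (fun p hp => (Nat.prime_of_mem_primeFactors hp).ne_zero)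
      (by
        intro p hp q hq hpq
        exact (Nat.coprime_primes (Nat.prime_of_mem_primeFactors hp)
          (Nat.prime_of_mem_primeFactors hq)).2 hpq)
    exact ⟨k, hk⟩
  choose v hv using hv
  let β : ℕ → Finset ℕ := fun n => Rd.filter (fun r => r ∣ n + s)
  have hmaps : ∀ n ∈ S, β n ∈ Rd.powerset := fun n _ =>
    Finset.mem_powerset.2 (Finset.filter_subset _ _)
  have hcard := Finset.card_eq_sum_card_fiberwise (f := β) (s := S) (t := Rd.powerset) hmaps
  have hfib : ∀ B ∈ Rd.powerset, S.filter (fun n => β n = B) =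
      (Finset.Ioc a (a + u)).filter (fun n : ℕ => n ≡ v B [MOD d]) := by
    intro B hB
    rw [Finset.mem_powerset] at hB
    rw [hS, Finset.filter_filter]
    refine Finset.filter_congr fun n _ => ?_
    -- both are equivalent to: for all p, n = v mod p
    have hmod : n ≡ v B [MOD d] ↔ ∀ p ∈ d.primeFactors, n ≡ v B [MOD p] := by
      constructor
      · intro h p hp
        exact h.of_dvd (Nat.dvd_of_mem_primeFactors hp)
      · intro h
        have h1 : ∀ p ∈ d.primeFactors, (p : ℤ) ∣ ((v B : ℤ) - n) := fun p hp =>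
          (Nat.modEq_iff_dvd.1 (h p hp))
        have h2 : (∏ p ∈ d.primeFactors, (p : ℤ)) ∣ ((v B : ℤ) - n) := by
          refine Finset.prod_dvd_of_coprime ?_ h1
          intro p hp q hq hpq
          exact Nat.isCoprime_iff_coprime.2 ((Nat.coprime_primes (Nat.prime_of_mem_primeFactors hp)
            (Nat.prime_of_mem_primeFactors hq)).2 hpq)
        have h3 : (∏ p ∈ d.primeFactors, (p : ℤ)) = (d : ℤ) := by
          have := Nat.prod_primeFactors_of_squarefree hd
          rw [← Nat.cast_prod]
          exact congrArg _ this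
        rw [h3] at h2
        exact Nat.modEq_iff_dvd.2 h2
    have hp1 : ∀ p ∈ d.primeFactors, (n ≡ v B [MOD p] ↔ if p ∈ B then p ∣ n + s else p ∣ n) := by
      intro p hp
      have hpp := Nat.prime_of_mem_primeFactors hp
      have hvp := hv B p hp
      have e1 : n ≡ v B [MOD p] ↔ n ≡ (if p ∈ B then p - s % p else 0) [MOD p] :=
        ⟨fun h => h.trans hvp, fun h => h.trans hvp.symm⟩
      rw [e1]
      have e0 : p ∣ (p - s % p) + s := by
        have e2 := Nat.mod_lt s hpp.pos
        have e3 := Nat.div_add_mod s p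
        have e4 : (p - s % p) + s = p * (1 + s / p) := by
          rw [mul_add, mul_one]
          omega
        rw [e4]
        exact dvd_mul_right _ _
      split_ifs with hpB
      · constructor
        · intro h
          have h1 : n + s ≡ (p - s % p) + s [MOD p] := h.add_right s
          exact (Nat.modEq_zero_iff_dvd).1 (h1.trans (Nat.modEq_zero_iff_dvd.2 e0))
        · intro h
          have h1 : n + s ≡ (p - s % p) + s [MOD p] :=
            ((Nat.modEq_zero_iff_dvd).2 h).trans (Nat.modEq_zero_iff_dvd.2 e0).symm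
          exact Nat.ModEq.add_right_cancel' s h1
      · exact Nat.modEq_zero_iff_dvd
    have hnot : ∀ p ∈ R, p ∣ n → ¬ p ∣ n + s := by
      intro p hp h1 h2
      exact hRs p hp ((Nat.dvd_add_right h1).1 h2)
    rw [hmod]
    constructor
    · rintro ⟨h1, h2⟩ p hp
      rw [hp1 p hp]
      have hpp := Nat.prime_of_mem_primeFactors hp
      split_ifs with hpB
      · rw [← h2] at hpB
        exact (Finset.mem_filter.1 hpB).2
      · rcases h1 p hp with h | ⟨hpR, h⟩
        · exact h
        · exfalso
          apply hpB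
          rw [← h2]
          exact Finset.mem_filter.2 ⟨Finset.mem_filter.2 ⟨hpR, Nat.dvd_of_mem_primeFactors hp⟩, h⟩
    · intro h
      have h' : ∀ p ∈ d.primeFactors, if p ∈ B then p ∣ n + s else p ∣ n := fun p hp =>
        (hp1 p hp).1 (h p hp)
      refine ⟨fun p hp => ?_, ?_⟩
      · have := h' p hp
        split_ifs at this with hpB
        · exact Or.inr ⟨(Finset.mem_filter.1 (hB hpB)).1, this⟩
        · exact Or.inl this
      · ext r
        simp only [β, Finset.mem_filter]
        constructor
        · rintro ⟨hr, hr1⟩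
          by_contra hrB
          have hrR := (Finset.mem_filter.1 hr)
          have hrp : r.Prime := hR r hrR.1
          have hrd : r ∈ d.primeFactors := Nat.mem_primeFactors.2 ⟨hrp, hrR.2, hd0⟩
          have := h' r hrd
          rw [if_neg hrB] at this
          exact hnot r hrR.1 this hr1
        · intro hrB
          have hr := hB hrB
          have hrR := (Finset.mem_filter.1 hr)
          have hrp : r.Prime := hR r hrR.1
          have hrd : r ∈ d.primeFactors := Nat.mem_primeFactors.2 ⟨hrp, hrR.2, hd0⟩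
          have := h' r hrd
          rw [if_pos hrB] at this
          exact ⟨hr, this⟩
  rw [hcard]
  have h2c : (2 : ℝ) ^ Rd.card = ∑ B ∈ Rd.powerset, (1 : ℝ) := by
    rw [Finset.sum_const, Finset.card_powerset]; simp
  rw [h2c, Finset.sum_mul]
  push_cast
  rw [← Finset.sum_sub_distrib]
  refine (Finset.abs_sum_le_sum_abs _ _).trans (Finset.sum_le_sum fun B hB => ?_)
  rw [hfib B hB, one_mul]
  exact count_two_class a u d (v B) (Nat.pos_of_ne_zero hd0)

end Pool.Agent.H357R2.SI
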