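import Pool.Agent.H357R2.SI.PairLower

set_option autoImplicit false

open Filter Topology

namespace Pool.Agent.H357R2.SI

lemma pair_asymp : ∀ᶠ x : ℝ in atTop, 1 < x ∧ x ^ (1 / 16 : ℝ) + 1 ≤ x ^ (1 / 8 : ℝ) ∧
    3 * x ^ (3 / 4 : ℝ) ≤ x / Real.log x ^ 2 := by
  have h1 : ∀ᶠ x : ℝ in atTop, 2 ≤ x ^ (1 / 16 : ℝ) :=
    (tendsto_rpow_atTop (by norm_num : (0 : ℝ) < 1 / 16)).eventually_ge_atTop 2
  have h2 := (isLittleO_log_rpow_atTop (by norm_num : (0 : ℝ) < 1 / 8)).bound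
    (by norm_num : (0 : ℝ) < 1 / 2)
  filter_upwards [h1, h2, eventually_gt_atTop 1] with x h1 h2 h3
  have hx0 : 0 < x := by linarith
  have hlog : 0 < Real.log x := Real.log_pos h3
  refine ⟨h3, ?_, ?_⟩
  · have e : x ^ (1 / 8 : ℝ) = x ^ (1 / 16 : ℝ) * x ^ (1 / 16 : ℝ) := by
      rw [← Real.rpow_add hx0]; norm_num
    rw [e]
    nlinarith
  · rw [Real.norm_of_nonneg hlog.le, Real.norm_of_nonneg (by positivity)] at h2
    have e : x = x ^ (3 / 4 : ℝ) * (x ^ (1 / 8 : ℝ) * x ^ (1 / 8 : ℝ)) := by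
      rw [← Real.rpow_add hx0, ← Real.rpow_add hx0]; norm_num
    rw [le_div_iff₀ (by positivity)]
    have hx34 : 0 < x ^ (3 / 4 : ℝ) := by positivity
    have h4 : Real.log x ^ 2 ≤ (1 / 2 * x ^ (1 / 8 : ℝ)) ^ 2 := by gcongr
    have h5 : (1 / 2 * x ^ (1 / 8 : ℝ)) ^ 2 = 1 / 4 * (x ^ (1 / 8 : ℝ) * x ^ (1 / 8 : ℝ)) := by ring
    rw [h5] at h4
    have h6 : 0 ≤ x ^ (1 / 8 : ℝ) * x ^ (1 / 8 : ℝ) := by positivity
    calc 3 * x ^ (3 / 4 : ℝ) * Real.log x ^ 2 ≤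
        3 * x ^ (3 / 4 : ℝ) * (1 / 4 * (x ^ (1 / 8 : ℝ) * x ^ (1 / 8 : ℝ))) := by gcongr
      _ ≤ x ^ (3 / 4 : ℝ) * (x ^ (1 / 8 : ℝ) * x ^ (1 / 8 : ℝ)) := by nlinarith
      _ = x := e.symm

/-- Upper bound sieve for prime pairs with a given difference. -/
theorem pair_sieve : ∃ C : ℝ, 1 ≤ C ∧ ∃ u0 : ℕ, ∀ h a u : ℕ, 0 < h → u0 ≤ u →
    (((Finset.Ioc a (a + u)).filter (fun n => n.Prime ∧ (n + h).Prime)).card : ℝ) ≤
      C * sg h ^ 2 * u / Real.log u ^ 2 := by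
  refine ⟨18433, by norm_num, ?_⟩
  obtain ⟨x0, hx0⟩ := Filter.eventually_atTop.mp pair_asymp
  refine ⟨⌈x0⌉₊, ?_⟩
  intro h a u hh hu
  have hux : x0 ≤ (u : ℝ) := Nat.ceil_le.mp hu
  obtain ⟨hu1, h16, h34⟩ := hx0 u hux
  have hu0 : (0 : ℝ) < u := by linarith
  have hlog : 0 < Real.log u := Real.log_pos hu1
  have hsg := one_le_sg hh
  set N : ℕ := ⌊(u : ℝ) ^ (1 / 8 : ℝ)⌋₊ with hN
  have hN16 : (u : ℝ) ^ (1 / 16 : ℝ) ≤ N := by
    have := Nat.lt_floor_add_one ((u : ℝ) ^ (1 / 8 : ℝ))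
    rw [← hN] at this
    linarith
  have h161 : 1 ≤ (u : ℝ) ^ (1 / 16 : ℝ) := Real.one_le_rpow hu1.le (by norm_num)
  have hN1r : (1 : ℝ) ≤ N := h161.trans hN16
  have hN1 : 1 ≤ N := by exact_mod_cast hN1r
  have hN8 : (N : ℝ) ≤ (u : ℝ) ^ (1 / 8 : ℝ) := Nat.floor_le (by positivity)
  have hlogN : (1 / 16) * Real.log u ≤ Real.log N := by
    rw [← Real.log_rpow hu0]
    exact Real.log_le_log (by positivity) hN16
  have hlow := pair_selberg_lower hh hN1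
  set R := (Finset.Icc 1 N).filter (fun p => p.Prime ∧ ¬ p ∣ 2 * h) with hR
  have hRp : ∀ r ∈ R, r.Prime := fun r hr => (Finset.mem_filter.mp hr).2.1
  have hR3 : ∀ r ∈ R, 3 ≤ r := by
    intro r hr
    have h1 := (Finset.mem_filter.mp hr).2
    rcases Nat.lt_or_ge r 3 with h9 | h9
    · have : r = 2 := le_antisymm (by omega) h1.1.two_le
      subst this
      exact absurd (dvd_mul_right 2 h) h1.2
    · exact h9
  have hRh : ∀ r ∈ R, ¬ r ∣ h := by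
    intro r hr hd
    exact (Finset.mem_filter.mp hr).2.2 (hd.mul_left 2)
  have hL : 0 < Real.log N ^ 2 / (72 * sg h ^ 2) := by
    have : 0 < Real.log N := lt_of_lt_of_le (by positivity) hlogN
    positivity
  have h1 := pair_aux (s := h) hR3 hRp hRh (a := a) (u := u) hN1 _ hL hlow
  have hsub : (Finset.Ioc a (a + u)).filter (fun n => n.Prime ∧ (n + h).Prime) ⊆
      (Finset.Ioc a (a + u)).filter (fun n => n.Prime ∧ ∀ r ∈ R, ¬ r ∣ n + h) ∪ Finset.Icc 1 N := by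
    intro n hn
    rw [Finset.mem_filter] at hn
    obtain ⟨hn1, hn2, hn3⟩ := hn
    rw [Finset.mem_union, Finset.mem_filter, Finset.mem_Icc]
    by_cases hnN : n ≤ N
    · exact Or.inr ⟨hn2.one_lt.le, hnN⟩
    · left
      refine ⟨hn1, hn2, ?_⟩
      intro r hr hd
      have hrN := (Finset.mem_Icc.mp (Finset.mem_filter.mp hr).1).2
      have := (Nat.prime_dvd_prime_iff_eq (hRp r hr) hn3).mp hd
      omega
  have h2 : (((Finset.Ioc a (a + u)).filter (fun n => n.Prime ∧ (n + h).Prime)).card : ℝ) ≤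
      (((Finset.Ioc a (a + u)).filter (fun n => n.Prime ∧ ∀ r ∈ R, ¬ r ∣ n + h)).card : ℝ) + N := by
    have := (Finset.card_le_card hsub).trans (Finset.card_union_le _ _)
    rw [Nat.card_Icc, Nat.add_sub_cancel] at this
    exact_mod_cast this
  have h3 : (u : ℝ) / (Real.log N ^ 2 / (72 * sg h ^ 2)) ≤
      18432 * sg h ^ 2 * u / Real.log u ^ 2 := by
    have h4 : (1 / 256) * Real.log u ^ 2 ≤ Real.log N ^ 2 := by
      have : ((1 / 16) * Real.log u) ^ 2 ≤ Real.log N ^ 2 := by gcongr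
      calc _ = ((1 / 16) * Real.log u) ^ 2 := by ring
        _ ≤ _ := this
    calc (u : ℝ) / (Real.log N ^ 2 / (72 * sg h ^ 2))
        ≤ (u : ℝ) / ((1 / 256) * Real.log u ^ 2 / (72 * sg h ^ 2)) := by gcongr
      _ = 18432 * sg h ^ 2 * u / Real.log u ^ 2 := by
          field_simp
          ring
  have h6 : (N : ℝ) ^ 6 ≤ (u : ℝ) ^ (3 / 4 : ℝ) := by
    calc (N : ℝ) ^ 6 ≤ ((u : ℝ) ^ (1 / 8 : ℝ)) ^ 6 := by gcongr
      _ = (u : ℝ) ^ (3 / 4 : ℝ) := by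
          rw [← Real.rpow_natCast _ 6, ← Real.rpow_mul hu0.le]; norm_num
  have h7 : (N : ℝ) ≤ (u : ℝ) ^ (3 / 4 : ℝ) := by
    calc (N : ℝ) ≤ (u : ℝ) ^ (1 / 8 : ℝ) := hN8
      _ ≤ (u : ℝ) ^ (3 / 4 : ℝ) := Real.rpow_le_rpow_of_exponent_le hu1.le (by norm_num)
  have h8 : (u : ℝ) / Real.log u ^ 2 ≤ sg h ^ 2 * u / Real.log u ^ 2 := by
    apply div_le_div_of_nonneg_right _ (by positivity)
    have : 1 ≤ sg h ^ 2 := one_le_pow₀ hsg
    nlinarith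
  have h9 : 18433 * sg h ^ 2 * (u : ℝ) / Real.log u ^ 2 =
    18432 * sg h ^ 2 * u / Real.log u ^ 2 + sg h ^ 2 * u / Real.log u ^ 2 := by ring
  rw [h9]
  linarith

/-- average of `σ_{-1}(h)^2` -/
theorem sum_sg_sq : ∃ C : ℝ, 1 ≤ C ∧ ∀ T : ℕ, ∑ h ∈ Finset.Icc 1 T, sg h ^ 2 ≤ C * T := by
  have hsum : Summable (fun n : ℕ => (n : ℝ) ^ (-(3 / 2) : ℝ)) :=
    Real.summable_nat_rpow.mpr (by norm_num)
  set C₀ : ℝ := ∑' n : ℕ, (n : ℝ) ^ (-(3 / 2) : ℝ) with hC₀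
  have hC₀0 : 0 ≤ C₀ := tsum_nonneg (fun n => by positivity)
  have hpart : ∀ s : Finset ℕ, ∑ d ∈ s, (d : ℝ) ^ (-(3 / 2) : ℝ) ≤ C₀ :=
    fun s => hsum.sum_le_tsum s (fun n _ => by positivity)
  refine ⟨C₀ ^ 2 + 1, by nlinarith, fun T => ?_⟩
  -- Cauchy-Schwarz
  have h1 : ∀ h ∈ Finset.Icc 1 T, sg h ^ 2 ≤ C₀ * ∑ d ∈ h.divisors, (d : ℝ) ^ (-(1 / 2) : ℝ) := by
    intro h _
    have h2 : sg h = ∑ d ∈ h.divisors, (d : ℝ) ^ (-(3 / 4) : ℝ) * (d : ℝ) ^ (-(1 / 4) : ℝ) := by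
      unfold sg
      apply Finset.sum_congr rfl
      intro d hd
      have hd0 : (0 : ℝ) < d := by exact_mod_cast Nat.pos_of_mem_divisors hd
      rw [← Real.rpow_add hd0, one_div, ← Real.rpow_neg_one]
      norm_num
    rw [h2]
    refine (Finset.sum_mul_sq_le_sq_mul_sq _ _ _).trans ?_
    have h3 : ∑ d ∈ h.divisors, ((d : ℝ) ^ (-(3 / 4) : ℝ)) ^ 2 =
        ∑ d ∈ h.divisors, (d : ℝ) ^ (-(3 / 2) : ℝ) := by
      apply Finset.sum_congr rfl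
      intro d _
      rw [← Real.rpow_natCast, ← Real.rpow_mul (Nat.cast_nonneg d)]
      norm_num
    have h4 : ∑ d ∈ h.divisors, ((d : ℝ) ^ (-(1 / 4) : ℝ)) ^ 2 =
        ∑ d ∈ h.divisors, (d : ℝ) ^ (-(1 / 2) : ℝ) := by
      apply Finset.sum_congr rfl
      intro d _
      rw [← Real.rpow_natCast, ← Real.rpow_mul (Nat.cast_nonneg d)]
      norm_num
    rw [h3, h4]
    apply mul_le_mul_of_nonneg_right (hpart _)
    exact Finset.sum_nonneg (fun _ _ => by positivity)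
  have h5 : ∑ h ∈ Finset.Icc 1 T, ∑ d ∈ h.divisors, (d : ℝ) ^ (-(1 / 2) : ℝ) ≤ C₀ * T := by
    have h6 : ∀ h ∈ Finset.Icc 1 T, ∑ d ∈ h.divisors, (d : ℝ) ^ (-(1 / 2) : ℝ) =
        ∑ d ∈ Finset.Icc 1 T, if d ∣ h then (d : ℝ) ^ (-(1 / 2) : ℝ) else 0 := by
      intro h hh
      rw [Finset.mem_Icc] at hh
      rw [← Finset.sum_filter]
      apply Finset.sum_congr _ (fun _ _ => rfl)
      ext d
      rw [Nat.mem_divisors, Finset.mem_filter, Finset.mem_Icc]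
      constructor
      · rintro ⟨h7, h8⟩
        exact ⟨⟨Nat.pos_of_dvd_of_pos h7 (by omega), (Nat.le_of_dvd (by omega) h7).trans hh.2⟩, h7⟩
      · rintro ⟨_, h7⟩
        exact ⟨h7, by omega⟩
    rw [Finset.sum_congr rfl h6, Finset.sum_comm]
    have h7 : ∀ d ∈ Finset.Icc 1 T, (∑ h ∈ Finset.Icc 1 T,
        if d ∣ h then (d : ℝ) ^ (-(1 / 2) : ℝ) else 0) ≤ (d : ℝ) ^ (-(3 / 2) : ℝ) * T := by
      intro d hd
      rw [Finset.mem_Icc] at hd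
      have hd0 : (0 : ℝ) < d := by exact_mod_cast hd.1
      rw [← Finset.sum_filter, Finset.sum_const, nsmul_eq_mul]
      have h8 : ((Finset.Icc 1 T).filter (fun h => d ∣ h)).card = T / d := by
        have := Nat.Ioc_filter_dvd_card_eq_div T d
        rw [← this]
        congr 1
      rw [h8]
      have h9 : ((T / d : ℕ) : ℝ) ≤ (T : ℝ) / d := Nat.cast_div_le
      calc ((T / d : ℕ) : ℝ) * (d : ℝ) ^ (-(1 / 2) : ℝ) ≤ (T : ℝ) / d * (d : ℝ) ^ (-(1 / 2) : ℝ) := by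
            gcongr
        _ = (d : ℝ) ^ (-(3 / 2) : ℝ) * T := by
            rw [show (-(3 / 2) : ℝ) = -1 + -(1 / 2) by norm_num, Real.rpow_add hd0,
              Real.rpow_neg_one]
            field_simp
    refine (Finset.sum_le_sum h7).trans ?_
    rw [← Finset.sum_mul]
    exact mul_le_mul_of_nonneg_right (hpart _) (Nat.cast_nonneg T)
  calc ∑ h ∈ Finset.Icc 1 T, sg h ^ 2
      ≤ ∑ h ∈ Finset.Icc 1 T, C₀ * ∑ d ∈ h.divisors, (d : ℝ) ^ (-(1 / 2) : ℝ) :=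
        Finset.sum_le_sum h1
    _ = C₀ * ∑ h ∈ Finset.Icc 1 T, ∑ d ∈ h.divisors, (d : ℝ) ^ (-(1 / 2) : ℝ) := by
        rw [Finset.mul_sum]
    _ ≤ C₀ * (C₀ * T) := mul_le_mul_of_nonneg_left h5 hC₀0
    _ ≤ (C₀ ^ 2 + 1) * T := by
        have : (0 : ℝ) ≤ T := Nat.cast_nonneg T
        nlinarith

end Pool.Agent.H357R2.SI
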