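import Pool.Agent.Helper601.HKa15
import Pool.Agent.H357R2.SI.PairSieve

set_option autoImplicit false

namespace Pool.Agent.H357R2.SI

open Pool.Agent.Helper601.HK (sfR mem_sfR sfR_prod sum_inv_sq_le harmonic_le log_le)

/-- `σ_{-1}(h)` -/
noncomputable def sg (h : ℕ) : ℝ := ∑ d ∈ h.divisors, 1 / (d : ℝ)

lemma one_le_sg {h : ℕ} (hh : 0 < h) : 1 ≤ sg h := by
  unfold sg
  have h1 : (1 : ℕ) ∈ h.divisors := Nat.one_mem_divisors.mpr hh.ne'
  have h2 := Finset.single_le_sum (f := fun d : ℕ => 1 / (d : ℝ)) (s := h.divisors)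
    (fun d _ => by positivity) h1
  simpa using h2

lemma prod_le_sg {h : ℕ} (hh : 0 < h) : ∏ p ∈ h.primeFactors, (1 + 1 / (p : ℝ)) ≤ sg h := by
  classical
  rw [Finset.prod_one_add]
  have hinj : Set.InjOn (fun T : Finset ℕ => ∏ p ∈ T, p) (h.primeFactors.powerset : Set (Finset ℕ)) := by
    intro T hT T' hT' heq
    rw [Finset.mem_coe, Finset.mem_powerset] at hT hT'
    simp only at heq
    have hp : ∀ U : Finset ℕ, U ⊆ h.primeFactors → (∏ p ∈ U, p).primeFactors = U := by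
      intro U hU
      exact Nat.primeFactors_prod (fun p hp => Nat.prime_of_mem_primeFactors (hU hp))
    rw [← hp T hT, ← hp T' hT', heq]
  have h1 : ∑ T ∈ h.primeFactors.powerset, ∏ p ∈ T, (1 / (p : ℝ)) =
      ∑ d ∈ h.primeFactors.powerset.image (fun T : Finset ℕ => ∏ p ∈ T, p), 1 / (d : ℝ) := by
    rw [Finset.sum_image hinj]
    apply Finset.sum_congr rfl
    intro T _
    rw [Finset.prod_div_distrib, Finset.prod_const_one]
    push_cast
    rfl
  rw [h1]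
  unfold sg
  apply Finset.sum_le_sum_of_subset_of_nonneg
  · intro d hd
    obtain ⟨T, hT, rfl⟩ := Finset.mem_image.mp hd
    rw [Finset.mem_powerset] at hT
    rw [Nat.mem_divisors]
    refine ⟨?_, hh.ne'⟩
    apply Finset.prod_primes_dvd
    · intro p hp
      exact (Nat.prime_of_mem_primeFactors (hT hp)).prime
    · intro p hp
      exact Nat.dvd_of_mem_primeFactors (hT hp)
  · intro d _ _
    positivity

lemma prod_two_mul_le {h : ℕ} (hh : 0 < h) :
    ∏ p ∈ (2 * h).primeFactors, (1 + 1 / (p : ℝ)) ≤ 3 / 2 * sg h := by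
  classical
  have h1 : (2 * h).primeFactors = insert 2 h.primeFactors := by
    rw [Nat.primeFactors_mul (by norm_num) hh.ne', Nat.Prime.primeFactors Nat.prime_two]
    rfl
  rw [h1]
  have hsg := prod_le_sg hh
  have hsg1 := one_le_sg hh
  by_cases h2 : 2 ∈ h.primeFactors
  · rw [Finset.insert_eq_of_mem h2]
    linarith
  · rw [Finset.prod_insert h2]
    have : (1 + 1 / ((2 : ℕ) : ℝ)) = 3 / 2 := by norm_num
    rw [this]
    apply mul_le_mul_of_nonneg_left hsg (by norm_num)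

/-- squarefree pairs -/
lemma pair_lower (R' : Finset ℕ) (hR' : ∀ r ∈ R', r.Prime) (N : ℕ) :
    (∑ a ∈ sfR R' (Nat.sqrt N), 1 / (a : ℝ)) ^ 2 ≤
      2 * ∑ l ∈ sfR R' N, (l.divisors.card : ℝ) / l := by
  classical
  set M := Nat.sqrt N with hM
  have hMN : M * M ≤ N := Nat.sqrt_le N
  set T : Finset (ℕ × (Σ _ : ℕ, ℕ)) := (Finset.Icc 1 M) ×ˢ ((sfR R' N).sigma (fun l => l.divisors))
    with hT
  let w : ℕ × (Σ _ : ℕ, ℕ) → ℝ := fun y => 1 / ((y.1 : ℝ) ^ 2) * (1 / (y.2.1 : ℝ))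
  let i : ℕ × ℕ → ℕ × (Σ _ : ℕ, ℕ) := fun x =>
    (Nat.gcd x.1 x.2, ⟨(x.1 / Nat.gcd x.1 x.2) * (x.2 / Nat.gcd x.1 x.2), x.1 / Nat.gcd x.1 x.2⟩)
  have hTsum : ∑ y ∈ T, w y = (∑ g ∈ Finset.Icc 1 M, 1 / ((g : ℝ) ^ 2)) *
      ∑ l ∈ sfR R' N, (l.divisors.card : ℝ) / l := by
    rw [hT, Finset.sum_product, Finset.sum_mul]
    apply Finset.sum_congr rfl
    intro g _
    rw [Finset.sum_sigma, Finset.mul_sum]
    apply Finset.sum_congr rfl
    intro l _
    simp only [w]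
    rw [Finset.sum_const, nsmul_eq_mul]
    ring
  have hpos : ∀ x ∈ sfR R' M ×ˢ sfR R' M, 1 ≤ x.1 ∧ 1 ≤ x.2 := by
    intro x hx
    rw [Finset.mem_product, mem_sfR, mem_sfR] at hx
    exact ⟨hx.1.1.1, hx.2.1.1⟩
  have hmaps : ∀ x ∈ sfR R' M ×ˢ sfR R' M, i x ∈ T := by
    intro x hx
    have hx1 := hpos x hx
    rw [Finset.mem_product, mem_sfR, mem_sfR] at hx
    obtain ⟨⟨⟨ha1, haM⟩, hasq, haR⟩, ⟨hb1, hbM⟩, hbsq, hbR⟩ := hx
    have hg : 0 < Nat.gcd x.1 x.2 := Nat.gcd_pos_of_pos_left _ hx1.1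
    have hga : Nat.gcd x.1 x.2 ∣ x.1 := Nat.gcd_dvd_left _ _
    have hgb : Nat.gcd x.1 x.2 ∣ x.2 := Nat.gcd_dvd_right _ _
    have hcop : Nat.Coprime (x.1 / Nat.gcd x.1 x.2) (x.2 / Nat.gcd x.1 x.2) :=
      Nat.coprime_div_gcd_div_gcd hg
    have hda : x.1 / Nat.gcd x.1 x.2 ∣ x.1 := Nat.div_dvd_of_dvd hga
    have hdb : x.2 / Nat.gcd x.1 x.2 ∣ x.2 := Nat.div_dvd_of_dvd hgb
    have hapos : 0 < x.1 / Nat.gcd x.1 x.2 := Nat.div_pos (Nat.le_of_dvd (by omega) hga) hg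
    have hbpos : 0 < x.2 / Nat.gcd x.1 x.2 := Nat.div_pos (Nat.le_of_dvd (by omega) hgb) hg
    have hl0 : (x.1 / Nat.gcd x.1 x.2) * (x.2 / Nat.gcd x.1 x.2) ≠ 0 := by positivity
    rw [hT]
    simp only [i]
    rw [Finset.mem_product, Finset.mem_Icc, Finset.mem_sigma, mem_sfR, Nat.mem_divisors]
    refine ⟨⟨hg, (Nat.le_of_dvd (by omega) hga).trans haM⟩, ⟨⟨?_, ?_⟩, ?_, ?_⟩, ?_, hl0⟩
    · exact Nat.one_le_iff_ne_zero.mpr hl0
    · calc (x.1 / Nat.gcd x.1 x.2) * (x.2 / Nat.gcd x.1 x.2) ≤ x.1 * x.2 :=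
            Nat.mul_le_mul (Nat.div_le_self _ _) (Nat.div_le_self _ _)
        _ ≤ M * M := Nat.mul_le_mul haM hbM
        _ ≤ N := hMN
    · rw [Nat.squarefree_mul hcop]
      exact ⟨hasq.squarefree_of_dvd hda, hbsq.squarefree_of_dvd hdb⟩
    · intro r hr hdvd
      rcases (Nat.Prime.dvd_mul (hR' r hr)).mp hdvd with h | h
      · exact haR r hr (h.trans hda)
      · exact hbR r hr (h.trans hdb)
    · exact dvd_mul_right _ _
  have hinj : Set.InjOn i (sfR R' M ×ˢ sfR R' M : Finset (ℕ × ℕ)) := by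
    intro x hx y hy hxy
    have hx1 := hpos x hx
    have hy1 := hpos y hy
    simp only [i, Prod.mk.injEq, Sigma.mk.injEq, heq_eq_eq] at hxy
    obtain ⟨h1, h2, h3⟩ := hxy
    have hgx : 0 < Nat.gcd x.1 x.2 := Nat.gcd_pos_of_pos_left _ hx1.1
    have hgy : 0 < Nat.gcd y.1 y.2 := Nat.gcd_pos_of_pos_left _ hy1.1
    have hax : x.1 / Nat.gcd x.1 x.2 * Nat.gcd x.1 x.2 = x.1 :=
      Nat.div_mul_cancel (Nat.gcd_dvd_left _ _)
    have hay : y.1 / Nat.gcd y.1 y.2 * Nat.gcd y.1 y.2 = y.1 :=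
      Nat.div_mul_cancel (Nat.gcd_dvd_left _ _)
    have hbx : x.2 / Nat.gcd x.1 x.2 * Nat.gcd x.1 x.2 = x.2 :=
      Nat.div_mul_cancel (Nat.gcd_dvd_right _ _)
    have hby : y.2 / Nat.gcd y.1 y.2 * Nat.gcd y.1 y.2 = y.2 :=
      Nat.div_mul_cancel (Nat.gcd_dvd_right _ _)
    have e1 : x.1 = y.1 := by rw [← hax, ← hay, h3, h1]
    have hapos : 0 < x.1 / Nat.gcd x.1 x.2 :=
      Nat.div_pos (Nat.le_of_dvd (by omega) (Nat.gcd_dvd_left _ _)) hgx
    rw [h3] at h2 hapos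
    have h4 := Nat.eq_of_mul_eq_mul_left hapos h2
    have e2 : x.2 = y.2 := by rw [← hbx, ← hby, h4, h1]
    exact Prod.ext e1 e2
  have hw : ∀ x ∈ sfR R' M ×ˢ sfR R' M, 1 / (x.1 : ℝ) * (1 / (x.2 : ℝ)) = w (i x) := by
    intro x hx
    have hx1 := hpos x hx
    have hgx : 0 < Nat.gcd x.1 x.2 := Nat.gcd_pos_of_pos_left _ hx1.1
    have hax : x.1 / Nat.gcd x.1 x.2 * Nat.gcd x.1 x.2 = x.1 :=
      Nat.div_mul_cancel (Nat.gcd_dvd_left _ _)
    have hbx : x.2 / Nat.gcd x.1 x.2 * Nat.gcd x.1 x.2 = x.2 :=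
      Nat.div_mul_cancel (Nat.gcd_dvd_right _ _)
    have hax' : ((x.1 / Nat.gcd x.1 x.2 : ℕ) : ℝ) * (Nat.gcd x.1 x.2 : ℝ) = x.1 := by
      exact_mod_cast hax
    have hbx' : ((x.2 / Nat.gcd x.1 x.2 : ℕ) : ℝ) * (Nat.gcd x.1 x.2 : ℝ) = x.2 := by
      exact_mod_cast hbx
    simp only [w, i]
    rw [← hax', ← hbx']
    push_cast
    rw [one_div_mul_one_div, one_div_mul_one_div]
    congr 1
    ring
  calc (∑ a ∈ sfR R' M, 1 / (a : ℝ)) ^ 2
      = ∑ x ∈ sfR R' M ×ˢ sfR R' M, 1 / (x.1 : ℝ) * (1 / (x.2 : ℝ)) := by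
        rw [sq, Finset.sum_mul_sum, Finset.sum_product]
    _ = ∑ x ∈ sfR R' M ×ˢ sfR R' M, w (i x) := Finset.sum_congr rfl hw
    _ = ∑ y ∈ (sfR R' M ×ˢ sfR R' M).image i, w y := (Finset.sum_image hinj).symm
    _ ≤ ∑ y ∈ T, w y := by
        apply Finset.sum_le_sum_of_subset_of_nonneg
        · intro y hy
          obtain ⟨x, hx, rfl⟩ := Finset.mem_image.mp hy
          exact hmaps x hx
        · intro y _ _
          simp only [w]
          positivity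
    _ = (∑ g ∈ Finset.Icc 1 M, 1 / ((g : ℝ) ^ 2)) *
      ∑ l ∈ sfR R' N, (l.divisors.card : ℝ) / l := hTsum
    _ ≤ 2 * ∑ l ∈ sfR R' N, (l.divisors.card : ℝ) / l := by
        apply mul_le_mul_of_nonneg_right (sum_inv_sq_le M)
        exact Finset.sum_nonneg (fun _ _ => by positivity)

lemma card_divisors_sqfree {l : ℕ} (hl : Squarefree l) :
    (l.divisors.card : ℝ) = ∏ _p ∈ l.primeFactors, (2 : ℝ) := by
  have h := Nat.card_divisors hl.ne_zero
  have h1 : ∏ p ∈ l.primeFactors, (l.factorization p + 1) = ∏ _p ∈ l.primeFactors, 2 := by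
    apply Finset.prod_congr rfl
    intro p hp
    have h2 : l.factorization p = 1 :=
      Nat.factorization_eq_one_of_squarefree hl (Nat.prime_of_mem_primeFactors hp)
        (Nat.dvd_of_mem_primeFactors hp)
    rw [h2]
  rw [h, h1]
  push_cast
  rfl

/-- Lower bound for the Selberg sum of the pair sieve. -/
lemma pair_selberg_lower {h : ℕ} (hh : 0 < h) {N : ℕ} (hN : 1 ≤ N) :
    Real.log N ^ 2 / (72 * sg h ^ 2) ≤
      ∑ l ∈ (Finset.Icc 1 N).filter Squarefree, ∏ p ∈ l.primeFactors,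
        (if p ∈ (Finset.Icc 1 N).filter (fun p => p.Prime ∧ ¬ p ∣ 2 * h) then
          2 / ((p : ℝ) - 2) else 1 / ((p : ℝ) - 1)) := by
  classical
  set R' := (2 * h).primeFactors with hR'
  have hR'p : ∀ r ∈ R', r.Prime := fun r hr => Nat.prime_of_mem_primeFactors hr
  have hsg := one_le_sg hh
  have h1 := log_le N hN
  have h2 := harmonic_le (Nat.sqrt N)
  have h3 := sfR_prod (Nat.sqrt N) R' hR'p
  have h4 := prod_two_mul_le hh
  set Q := ∑ a ∈ sfR R' (Nat.sqrt N), 1 / (a : ℝ) with hQ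
  have hQ0 : 0 ≤ Q := Finset.sum_nonneg (fun _ _ => by positivity)
  have h5 : Real.log N ≤ 6 * sg h * Q := by
    have h6 : (∏ r ∈ R', (1 + 1 / (r : ℝ))) * Q ≤ 3 / 2 * sg h * Q :=
      mul_le_mul_of_nonneg_right h4 hQ0
    linarith
  have hlog0 : 0 ≤ Real.log N := Real.log_natCast_nonneg N
  have h6 : Real.log N ^ 2 ≤ (6 * sg h * Q) ^ 2 := by gcongr
  have h7 := pair_lower R' hR'p N
  have h8 : Real.log N ^ 2 / (72 * sg h ^ 2) ≤ ∑ l ∈ sfR R' N, (l.divisors.card : ℝ) / l := by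
    rw [div_le_iff₀ (by positivity)]
    have : (6 * sg h * Q) ^ 2 = 36 * sg h ^ 2 * Q ^ 2 := by ring
    rw [this] at h6
    have h9 : 36 * sg h ^ 2 * Q ^ 2 ≤ 36 * sg h ^ 2 *
        (2 * ∑ l ∈ sfR R' N, (l.divisors.card : ℝ) / l) := by
      apply mul_le_mul_of_nonneg_left h7 (by positivity)
    linarith
  refine h8.trans ?_
  have hsub : sfR R' N ⊆ (Finset.Icc 1 N).filter Squarefree := by
    intro l hl
    rw [mem_sfR] at hl
    rw [Finset.mem_filter, Finset.mem_Icc]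
    exact ⟨hl.1, hl.2.1⟩
  have hterm : ∀ l ∈ sfR R' N, (l.divisors.card : ℝ) / l ≤ ∏ p ∈ l.primeFactors,
        (if p ∈ (Finset.Icc 1 N).filter (fun p => p.Prime ∧ ¬ p ∣ 2 * h) then
          2 / ((p : ℝ) - 2) else 1 / ((p : ℝ) - 1)) := by
    intro l hl
    rw [mem_sfR] at hl
    obtain ⟨⟨hl1, hlN⟩, hsq, hlR⟩ := hl
    rw [card_divisors_sqfree hsq]
    have hlprod : (l : ℝ) = ∏ p ∈ l.primeFactors, (p : ℝ) := by
      have := Nat.prod_primeFactors_of_squarefree hsq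
      conv_lhs => rw [← this]
      push_cast
      rfl
    conv_lhs => rw [hlprod]
    rw [← Finset.prod_div_distrib]
    apply Finset.prod_le_prod
    · intro p _; positivity
    · intro p hp
      have hpp := Nat.prime_of_mem_primeFactors hp
      have hpl := Nat.dvd_of_mem_primeFactors hp
      have hpR' : ¬ p ∣ 2 * h := by
        intro hd
        exact hlR p (Nat.mem_primeFactors.mpr ⟨hpp, hd, by positivity⟩) hpl
      have hpmem : p ∈ (Finset.Icc 1 N).filter (fun p => p.Prime ∧ ¬ p ∣ 2 * h) := by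
        rw [Finset.mem_filter, Finset.mem_Icc]
        exact ⟨⟨hpp.one_lt.le, (Nat.le_of_dvd hl1 hpl).trans hlN⟩, hpp, hpR'⟩
      rw [if_pos hpmem]
      have hp3 : 3 ≤ p := by
        rcases Nat.lt_or_ge p 3 with h9 | h9
        · have : p = 2 := le_antisymm (by omega) hpp.two_le
          subst this
          exact absurd (dvd_mul_right 2 h) hpR'
        · exact h9
      have hp3' : (3 : ℝ) ≤ p := by exact_mod_cast hp3
      apply div_le_div_of_nonneg_left (by norm_num) (by linarith) (by linarith)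
  refine (Finset.sum_le_sum hterm).trans ?_
  apply Finset.sum_le_sum_of_subset_of_nonneg hsub
  intro l hl _
  apply Finset.prod_nonneg
  intro p hp
  have hpp := Nat.prime_of_mem_primeFactors hp
  have hp2 : (2 : ℝ) ≤ p := by exact_mod_cast hpp.two_le
  split_ifs
  · apply div_nonneg (by norm_num) (by linarith)
  · apply div_nonneg (by norm_num) (by linarith)

end Pool.Agent.H357R2.SI
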