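import Pool.Agent.H357R2.SI.Regular

set_option autoImplicit false

open Filter Topology

namespace Pool.Agent.H357R2.SI

/-- Markov for squares -/
lemma markov_sq (S : Finset ℕ) (g : ℕ → ℝ) (v B : ℝ) (hv : 0 < v) (hB : ∑ n ∈ S, g n ^ 2 ≤ B)
    (P : Finset ℕ) (hP : P ⊆ S) (hg : ∀ n ∈ P, v ≤ |g n|) :
    (P.card : ℝ) ≤ B / v ^ 2 := by
  rw [le_div_iff₀ (by positivity)]
  calc (P.card : ℝ) * v ^ 2 = ∑ _n ∈ P, v ^ 2 := by rw [Finset.sum_const, nsmul_eq_mul]
    _ ≤ ∑ n ∈ P, g n ^ 2 := by
        apply Finset.sum_le_sum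
        intro n hn
        rw [← sq_abs (g n)]
        have := hg n hn
        gcongr
    _ ≤ ∑ n ∈ S, g n ^ 2 := Finset.sum_le_sum_of_subset_of_nonneg hP (fun _ _ _ => sq_nonneg _)
    _ ≤ B := hB

open Classical in
/-- the integers `n < N` for which the primes in `(n, n + 2^j]` are not equidistributed up to
`δ 2^j / log N` -/
noncomputable def irr (δ : ℝ) (N j : ℕ) : Finset ℕ :=
  (Finset.range N).filter (fun n : ℕ => ¬ ∀ u : ℝ, 0 ≤ u → u ≤ 2 ^ j →
    |(piS n u : ℝ) - u / 2 ^ j * piS n (2 ^ j)| ≤ δ * (2 ^ j / Real.log N))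

theorem regularity (δ : ℝ) (hδ : 0 < δ) : ∃ J : ℕ, ∀ᶠ N : ℕ in atTop, ∃ E : Finset ℕ,
    E.card ≤ J ∧ ∀ j : ℕ, j ∉ E → Real.log N ≤ 2 ^ j → 2 ^ j ≤ N →
      ((irr δ N j).card : ℝ) ≤ δ * N := by
  classical
  obtain ⟨C, hC1, N₀, hN₀3, hmom⟩ := second_moment_scales
  have hC0 : 0 < C := by linarith
  set lam : ℝ := max 1 (2 * C / δ) with hlam
  have hlam1 : 1 ≤ lam := le_max_left _ _
  have hlam0 : 0 < lam := by linarith
  have hlamC : 2 * C / δ ≤ lam := le_max_right _ _
  have hlam2 : C / lam ^ 2 ≤ δ / 2 := by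
    rw [div_le_iff₀ (by positivity)]
    rw [div_le_iff₀ hδ] at hlamC
    have : lam ≤ lam ^ 2 := by nlinarith
    have h2 : 2 * C ≤ lam ^ 2 * δ := hlamC.trans (mul_le_mul_of_nonneg_right this hδ.le)
    linarith
  set m : ℕ := ⌈2 * lam / δ⌉₊ with hm
  have hm1 : 2 * lam / δ ≤ m := Nat.le_ceil _
  have hm2 : (m : ℝ) ≤ 2 ^ m := by
    have : m < 2 ^ m := Nat.lt_two_pow_self
    exact_mod_cast this.le
  have hlamm : lam / 2 ^ m ≤ δ / 2 := by
    rw [div_le_iff₀ (by positivity)]
    rw [div_le_iff₀ hδ] at hm1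
    have := mul_le_mul_of_nonneg_right hm2 hδ.le
    linarith
  set τ : ℝ := δ / (m + 1) with hτ
  have hm0 : (0 : ℝ) ≤ m := Nat.cast_nonneg m
  have hτ0 : 0 < τ := by positivity
  have hmτ : m * τ / 2 ≤ δ / 2 := by
    have : m * τ ≤ δ := by
      rw [hτ, mul_div_assoc', div_le_iff₀ (by positivity)]
      nlinarith
    linarith
  set κ : ℝ := δ * τ ^ 2 / (8 * (m + 1) * 2 ^ m) with hκ
  have hκ0 : 0 < κ := by positivity
  refine ⟨m + ⌊3 * C / κ⌋₊ * m, ?_⟩
  filter_upwards [eventually_ge_atTop N₀] with N hN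
  have hN3n : 3 ≤ N := hN₀3.trans hN
  have hN3 : (3 : ℝ) ≤ N := by exact_mod_cast hN3n
  set L : ℝ := Real.log N with hL
  have hL0 : 0 < L := Real.log_pos (by linarith)
  set Z : ℕ := 3 * N with hZ
  set j0 : ℕ := Nat.clog 2 ⌈L⌉₊ with hj0
  have hj0L : L ≤ 2 ^ j0 := by
    have h1 : ⌈L⌉₊ ≤ 2 ^ j0 := Nat.le_pow_clog (by norm_num) _
    have h2 : L ≤ ⌈L⌉₊ := Nat.le_ceil _
    have h3 : ((⌈L⌉₊ : ℕ) : ℝ) ≤ ((2 ^ j0 : ℕ) : ℝ) := by exact_mod_cast h1
    push_cast at h3
    linarith
  have hj0le : ∀ j : ℕ, L ≤ 2 ^ j → j0 ≤ j := by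
    intro j hj
    rw [hj0]
    apply Nat.clog_le_of_le_pow
    rw [Nat.ceil_le]
    push_cast
    exact hj
  set bad : Finset ℕ := (Finset.Ico j0 (Nat.log 2 N)).filter
    (fun i => κ * N / L ^ 2 < Df Z (2 ^ i) / 4 ^ (i + 1)) with hbad
  set E : Finset ℕ := Finset.Ico j0 (j0 + m) ∪ bad.biUnion (fun i => Finset.Ioc i (i + m)) with hE
  have hNpos : (0 : ℝ) < N := by linarith
  refine ⟨E, ?_, ?_⟩
  · -- cardinality of the exceptional set
    by_cases hj0N : 2 ^ j0 ≤ N
    · have hlog3 : Real.log (Z : ℝ) ≤ 2 * L := by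
        have h1 : (Z : ℝ) = 3 * N := by rw [hZ]; push_cast; ring
        rw [h1, Real.log_mul (by norm_num) (by linarith)]
        have h2 : Real.log 3 ≤ L := Real.log_le_log (by norm_num) hN3
        linarith
      have hLZ : L ≤ Real.log (Z : ℝ) := by
        apply Real.log_le_log (by linarith)
        rw [hZ]; push_cast; linarith
      have he : En Z (2 ^ j0) / 4 ^ j0 ≤ 3 * C * N / L ^ 2 := by
        have h1 := hmom Z (2 ^ j0) (by omega) (by push_cast; linarith) (by omega)
        have h2 : En Z (2 ^ j0) ≤ ∑ n ∈ Finset.range Z, ((pc n (n + 2 ^ j0) : ℝ)) ^ 2 := by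
          unfold En
          apply Finset.sum_le_sum
          intro n _
          have : (SZ Z (2 ^ j0) n : ℝ) ≤ pc n (n + 2 ^ j0) := by exact_mod_cast SZ_le
          gcongr
        rw [div_le_iff₀ (by positivity)]
        refine (h2.trans h1).trans ?_
        have h3 : ((2 ^ j0 : ℕ) : ℝ) ^ 2 = 4 ^ j0 := by
          push_cast
          rw [← pow_mul, mul_comm, pow_mul]
          norm_num
        rw [h3]
        have h4 : (Z : ℝ) = 3 * N := by rw [hZ]; push_cast; ring
        rw [h4] at hLZ ⊢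
        calc C * (3 * N) * 4 ^ j0 / Real.log (3 * N) ^ 2
            ≤ C * (3 * N) * 4 ^ j0 / L ^ 2 := by gcongr
          _ = 3 * C * N / L ^ 2 * 4 ^ j0 := by ring
      have hsum : (bad.card : ℝ) * (κ * N / L ^ 2) ≤ 3 * C * N / L ^ 2 := by
        refine le_trans ?_ he
        have h1 := energy_sum Z j0 (Nat.log 2 N - j0)
        have h2 : 0 ≤ En Z (2 ^ (j0 + (Nat.log 2 N - j0))) / 4 ^ (j0 + (Nat.log 2 N - j0)) :=
          div_nonneg (En_nonneg _ _) (by positivity)
        have h3 : ∑ i ∈ Finset.Ico j0 (Nat.log 2 N), Df Z (2 ^ i) / 4 ^ (i + 1) =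
            ∑ i ∈ Finset.range (Nat.log 2 N - j0), Df Z (2 ^ (j0 + i)) / 4 ^ (j0 + i + 1) :=
          Finset.sum_Ico_eq_sum_range _ _ _
        calc (bad.card : ℝ) * (κ * N / L ^ 2) = ∑ _i ∈ bad, κ * N / L ^ 2 := by
              rw [Finset.sum_const, nsmul_eq_mul]
          _ ≤ ∑ i ∈ bad, Df Z (2 ^ i) / 4 ^ (i + 1) := by
              apply Finset.sum_le_sum
              intro i hi
              exact (Finset.mem_filter.mp hi).2.le
          _ ≤ ∑ i ∈ Finset.Ico j0 (Nat.log 2 N), Df Z (2 ^ i) / 4 ^ (i + 1) := by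
              apply Finset.sum_le_sum_of_subset_of_nonneg (Finset.filter_subset _ _)
              intro i _ _
              exact div_nonneg (Df_nonneg _ _) (by positivity)
          _ ≤ _ := by rw [h3]; linarith
      have hbadc : bad.card ≤ ⌊3 * C / κ⌋₊ := by
        apply Nat.le_floor
        rw [le_div_iff₀ hκ0]
        have h1 : (bad.card : ℝ) * (κ * N / L ^ 2) = (bad.card : ℝ) * κ * (N / L ^ 2) := by ring
        have h2 : 3 * C * N / L ^ 2 = 3 * C * (N / L ^ 2) := by ring
        rw [h1, h2] at hsum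
        exact le_of_mul_le_mul_right hsum (by positivity)
      calc E.card ≤ (Finset.Ico j0 (j0 + m)).card +
            (bad.biUnion (fun i => Finset.Ioc i (i + m))).card := Finset.card_union_le _ _
        _ ≤ m + ∑ i ∈ bad, (Finset.Ioc i (i + m)).card := by
            rw [Nat.card_Ico]
            have := Finset.card_biUnion_le (s := bad) (t := fun i => Finset.Ioc i (i + m))
            omega
        _ = m + bad.card * m := by
            congr 1
            rw [Finset.sum_congr rfl (fun i _ => by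
              rw [Nat.card_Ioc, Nat.add_sub_cancel_left] : ∀ i ∈ bad, (Finset.Ioc i (i + m)).card = m)]
            rw [Finset.sum_const, smul_eq_mul]
        _ ≤ m + ⌊3 * C / κ⌋₊ * m := by
            have := Nat.mul_le_mul_right m hbadc
            omega
    · -- then there are no admissible scales
      have hbe : bad = ∅ := by
        rw [hbad]
        have : Nat.log 2 N ≤ j0 := by
          by_contra h
          push Not at h
          apply hj0N
          have h1 : 2 ^ Nat.log 2 N ≤ N := Nat.pow_log_le_self 2 (by omega)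
          exact (Nat.pow_le_pow_right (by norm_num) h.le).trans h1
        rw [Finset.Ico_eq_empty (by omega), Finset.filter_empty]
      rw [hE, hbe, Finset.biUnion_empty, Finset.union_empty, Nat.card_Ico]
      omega
  · intro j hjE hjL hjN
    have hjj0 := hj0le j hjL
    rw [hE, Finset.mem_union, not_or, Finset.mem_Ico, Finset.mem_biUnion] at hjE
    obtain ⟨hjE1, hjE2⟩ := hjE
    have hjm : j0 + m ≤ j := by omega
    obtain ⟨b, rfl⟩ : ∃ b, j = b + m := ⟨j - m, by omega⟩
    have hjlog : b + m ≤ Nat.log 2 N := (Nat.le_log_iff_pow_le (by norm_num) (by omega)).mpr hjN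
    have hDf : ∀ i, b ≤ i → i < b + m → Df Z (2 ^ i) ≤ κ * N / L ^ 2 * 4 ^ (i + 1) := by
      intro i hi1 hi2
      by_contra hcon
      push Not at hcon
      apply hjE2
      refine ⟨i, ?_, Finset.mem_Ioc.mpr ⟨hi2, by omega⟩⟩
      rw [hbad, Finset.mem_filter, Finset.mem_Ico]
      refine ⟨⟨by omega, by omega⟩, ?_⟩
      rw [lt_div_iff₀ (by positivity)]
      exact hcon
    -- the bad sets
    set B2 := (Finset.range N).filter
      (fun n => lam * 2 ^ (b + m) / L < (pc n (n + 2 ^ (b + m)) : ℝ)) with hB2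
    let B1 : ℕ → ℕ → Finset ℕ := fun i q => (Finset.range N).filter
      (fun n => q * 2 ^ (i + 1) < 2 ^ (b + m) ∧ τ * 2 ^ i / L <
        |(SZ Z (2 ^ i) (n + q * 2 ^ (i + 1)) : ℝ) - SZ Z (2 ^ i) (n + q * 2 ^ (i + 1) + 2 ^ i)|)
    have hsub : irr δ N (b + m) ⊆ B2 ∪ (Finset.Ico b (b + m)).biUnion
        (fun i => (Finset.range (2 ^ m)).biUnion (fun q => B1 i q)) := by
      intro n hn
      unfold irr at hn
      rw [Finset.mem_filter, Finset.mem_range] at hn
      obtain ⟨hnN, hn2⟩ := hn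
      by_contra hcon
      rw [Finset.mem_union, not_or, Finset.mem_biUnion] at hcon
      obtain ⟨hc1, hc2⟩ := hcon
      apply hn2
      have h1 : (pc n (n + 2 ^ (b + m)) : ℝ) ≤ lam * 2 ^ (b + m) / L := by
        by_contra h
        push Not at h
        apply hc1
        rw [hB2, Finset.mem_filter, Finset.mem_range]
        exact ⟨hnN, h⟩
      have h2 := pointwise N b m n lam τ hτ0.le hN3n hnN hjN h1 (by
        intro i hi1 hi2 q hq
        by_contra h
        push Not at h
        apply hc2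
        refine ⟨i, Finset.mem_Ico.mpr ⟨hi1, hi2⟩, ?_⟩
        rw [Finset.mem_biUnion]
        refine ⟨q, ?_, ?_⟩
        · rw [Finset.mem_range]
          by_contra hq2
          push Not at hq2
          have h3 : 2 ^ m * 2 ^ (i + 1) ≤ q * 2 ^ (i + 1) := Nat.mul_le_mul_right _ hq2
          have h4 : 2 ^ (b + m) ≤ 2 ^ m * 2 ^ (i + 1) := by
            rw [← pow_add]
            exact Nat.pow_le_pow_right (by norm_num) (by omega)
          omega
        · simp only [B1]
          rw [Finset.mem_filter, Finset.mem_range]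
          exact ⟨hnN, hq, h⟩)
      intro u hu0 hu1
      refine (h2 u hu0 hu1).trans ?_
      apply mul_le_mul_of_nonneg_right _ (by positivity)
      linarith
    -- size of B2
    have hB2c : (B2.card : ℝ) ≤ δ / 2 * N := by
      have h1 := hmom N (2 ^ (b + m)) (by omega) (by push_cast; linarith) hjN
      have h2 := markov_sq (Finset.range N) (fun n => (pc n (n + 2 ^ (b + m)) : ℝ))
        (lam * 2 ^ (b + m) / L) _ (by positivity) h1 B2 (Finset.filter_subset _ _) (by
          intro n hn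
          rw [hB2, Finset.mem_filter] at hn
          rw [abs_of_nonneg (Nat.cast_nonneg _)]
          exact hn.2.le)
      refine h2.trans ?_
      have h3 : C * N * ((2 ^ (b + m) : ℕ) : ℝ) ^ 2 / Real.log N ^ 2 / (lam * 2 ^ (b + m) / L) ^ 2 =
          C / lam ^ 2 * N := by
        push_cast
        rw [← hL]
        field_simp
      rw [h3]
      exact mul_le_mul_of_nonneg_right hlam2 hNpos.le
    -- size of B1
    have hB1c : ∀ i ∈ Finset.Ico b (b + m), ∀ q ∈ Finset.range (2 ^ m),
        ((B1 i q).card : ℝ) ≤ 4 * κ * N / τ ^ 2 := by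
      intro i hi q _
      rw [Finset.mem_Ico] at hi
      have hD := hDf i hi.1 hi.2
      have h2 := markov_sq (Finset.range Z)
        (fun y => (SZ Z (2 ^ i) y : ℝ) - SZ Z (2 ^ i) (y + 2 ^ i))
        (τ * 2 ^ i / L) _ (by positivity) hD ((B1 i q).image (fun n => n + q * 2 ^ (i + 1))) (by
          intro y hy
          obtain ⟨n, hn, rfl⟩ := Finset.mem_image.mp hy
          simp only [B1] at hn
          rw [Finset.mem_filter, Finset.mem_range] at hn
          rw [Finset.mem_range]
          omega) (by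
          intro y hy
          obtain ⟨n, hn, rfl⟩ := Finset.mem_image.mp hy
          simp only [B1] at hn
          rw [Finset.mem_filter] at hn
          exact hn.2.2.le)
      rw [Finset.card_image_of_injective _ (add_left_injective _)] at h2
      refine h2.trans (le_of_eq ?_)
      have h4 : (4 : ℝ) ^ (i + 1) = 4 * (2 ^ i) ^ 2 := by
        rw [pow_succ, ← pow_mul, mul_comm i 2, pow_mul]
        norm_num
        ring
      rw [h4]
      field_simp
    have h1 := (Finset.card_le_card hsub).trans (Finset.card_union_le _ _)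
    have h2 : (((Finset.Ico b (b + m)).biUnion
        (fun i => (Finset.range (2 ^ m)).biUnion (fun q => B1 i q))).card : ℝ) ≤
        m * (2 ^ m * (4 * κ * N / τ ^ 2)) := by
      have h3 : (((Finset.Ico b (b + m)).biUnion
        (fun i => (Finset.range (2 ^ m)).biUnion (fun q => B1 i q))).card : ℝ) ≤
        ∑ i ∈ Finset.Ico b (b + m), ∑ q ∈ Finset.range (2 ^ m), ((B1 i q).card : ℝ) := by
        have h4 : ((Finset.Ico b (b + m)).biUnion
          (fun i => (Finset.range (2 ^ m)).biUnion (fun q => B1 i q))).card ≤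
          ∑ i ∈ Finset.Ico b (b + m), ∑ q ∈ Finset.range (2 ^ m), (B1 i q).card :=
          Finset.card_biUnion_le.trans (Finset.sum_le_sum fun i _ => Finset.card_biUnion_le)
        exact_mod_cast h4
      refine h3.trans ?_
      have h5 : ∑ i ∈ Finset.Ico b (b + m), ∑ q ∈ Finset.range (2 ^ m), ((B1 i q).card : ℝ) ≤
          ∑ _i ∈ Finset.Ico b (b + m), ∑ _q ∈ Finset.range (2 ^ m), 4 * κ * N / τ ^ 2 :=
        Finset.sum_le_sum fun i hi => Finset.sum_le_sum fun q hq => hB1c i hi q hq
      refine h5.trans (le_of_eq ?_)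
      rw [Finset.sum_const, Finset.sum_const, Nat.card_Ico, Finset.card_range, nsmul_eq_mul,
        nsmul_eq_mul, Nat.add_sub_cancel_left]
      push_cast
      ring
    have h3 : m * (2 ^ m * (4 * κ * N / τ ^ 2)) ≤ δ / 2 * N := by
      have h4 : m * (2 ^ m * (4 * κ * N / τ ^ 2)) = (m / (m + 1)) * (δ / 2 * N) := by
        rw [hκ]
        field_simp
        ring
      rw [h4]
      have h5 : (m : ℝ) / (m + 1) ≤ 1 := by
        rw [div_le_one (by positivity)]
        linarith
      have h6 : 0 ≤ δ / 2 * N := by positivity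
      nlinarith
    have h4 : ((irr δ N (b + m)).card : ℝ) ≤ B2.card + (((Finset.Ico b (b + m)).biUnion
        (fun i => (Finset.range (2 ^ m)).biUnion (fun q => B1 i q))).card : ℝ) := by
      exact_mod_cast h1
    linarith

end Pool.Agent.H357R2.SI
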