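import Pool.Agent.H357R2.SI.Regular

set_option autoImplicit false

open Filter Topology

namespace Pool.Agent.H357R2.SI

/-- pointwise statement: equidistribution inside a dyadic interval, relative version -/
lemma pointwise_rel (N b m n : ℕ) (τ : ℝ) (hτ : 0 ≤ τ) (hN : 3 ≤ N) (hn : n < N)
    (hj : 2 ^ (b + m) ≤ N)
    (h : ∀ i, b ≤ i → i < b + m → ∀ q, q * 2 ^ (i + 1) < 2 ^ (b + m) →
      |(SZ (3 * N) (2 ^ i) (n + q * 2 ^ (i + 1)) : ℝ) -
        SZ (3 * N) (2 ^ i) (n + q * 2 ^ (i + 1) + 2 ^ i)| ≤ τ * 2 ^ i / Real.log N) :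
    ∀ u : ℝ, 0 ≤ u → u ≤ 2 ^ (b + m) →
      |(piS n u : ℝ) - u / 2 ^ (b + m) * piS n (2 ^ (b + m))| ≤
        (m * τ / 2) * (2 ^ (b + m) / Real.log N) + piS n (2 ^ (b + m)) / 2 ^ m := by
  intro u hu0 hu1
  have hNr : (3 : ℝ) ≤ N := by exact_mod_cast hN
  have hL : 0 < Real.log N := Real.log_pos (by linarith)
  set L := Real.log N with hLdef
  set j := b + m with hjdef
  set Z := 3 * N with hZ
  set a : ℝ := (pc n (n + 2 ^ j) : ℝ) / 2 ^ j with ha
  have ha0 : 0 ≤ a := by positivity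
  set F : ℕ → ℕ → ℝ := fun i y => (SZ Z (2 ^ i) y : ℝ) / 2 ^ i with hFdef
  have hF : ∀ i y, F (i + 1) y = (F i y + F i (y + 2 ^ i)) / 2 := by
    intro i y
    simp only [hFdef]
    have h1 : 2 ^ (i + 1) = 2 * 2 ^ i := by rw [pow_succ]; ring
    rw [h1, SZ_double]
    push_cast
    rw [pow_succ]
    field_simp
  have hnest := nested F hF b (τ / L) m n (by
    intro i hi1 hi2 q hq
    have h1 := h i hi1 hi2 q hq
    simp only [hFdef]
    rw [← sub_div, abs_div, abs_of_pos (by positivity : (0 : ℝ) < 2 ^ i), div_le_iff₀ (by positivity)]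
    calc _ ≤ τ * 2 ^ i / L := h1
      _ = τ / L * 2 ^ i := by ring)
  have hw : (0 : ℕ) < 2 ^ b := by positivity
  have hw' : (0 : ℝ) < 2 ^ b := by positivity
  have hjw : 2 ^ j = 2 ^ m * 2 ^ b := by rw [hjdef, pow_add]; ring
  have hjwr : (2 : ℝ) ^ j = 2 ^ m * 2 ^ b := by rw [hjdef, pow_add]; ring
  have hFtop : F (b + m) n = a := by
    simp only [hFdef, ha]
    rw [← hjdef, SZ_eq (by omega)]
  have hblock : ∀ s, s < 2 ^ m → |(pc (n + s * 2 ^ b) (n + s * 2 ^ b + 2 ^ b) : ℝ) / ((2 ^ b : ℕ) : ℝ) - a| ≤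
      m * (τ / L) / 2 := by
    intro s hs
    have h1 := hnest s hs
    rw [hFtop] at h1
    have h2 : F b (n + s * 2 ^ b) = (pc (n + s * 2 ^ b) (n + s * 2 ^ b + 2 ^ b) : ℝ) / ((2 ^ b : ℕ) : ℝ) := by
      simp only [hFdef]
      rw [SZ_eq]
      · push_cast; rfl
      · have h3 : (s + 1) * 2 ^ b ≤ 2 ^ j := by
          rw [hjw]
          exact Nat.mul_le_mul_right _ hs
        rw [add_mul, one_mul] at h3
        omega
    rw [← h2]
    exact h1
  have hmt0 : 0 ≤ m * (τ / L) / 2 := by positivity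
  -- translate
  have hpow : ((2 : ℝ) ^ j) = ((2 ^ j : ℕ) : ℝ) := by push_cast; rfl
  have hfull : piS n (2 ^ j) = pc n (n + 2 ^ j) := by
    rw [piS_nat n _ (by positivity), hpow, Nat.floor_natCast]
  rw [piS_nat n u hu0, hfull]
  set h0 := ⌊u⌋₊ with hh0
  have hh0le : (h0 : ℝ) ≤ u := Nat.floor_le hu0
  have hh0lt : u < h0 + 1 := Nat.lt_floor_add_one u
  set r := h0 / 2 ^ b with hr
  have hr1 : r * 2 ^ b ≤ h0 := Nat.div_mul_le_self _ _
  have hr2 : h0 < (r + 1) * 2 ^ b := by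
    have := Nat.lt_div_mul_add (a := h0) (b := 2 ^ b) hw
    rw [← hr] at this
    linarith
  have hua : u / 2 ^ j * (pc n (n + 2 ^ j) : ℝ) = u * a := by rw [ha]; ring
  rw [hua]
  have hrhs : (m * τ / 2) * (2 ^ j / L) + (pc n (n + 2 ^ j) : ℝ) / 2 ^ m =
      2 ^ b * a + 2 ^ j * (m * (τ / L) / 2) := by
    rw [ha, hjwr]; field_simp; ring
  rw [hrhs]
  rcases Nat.lt_or_ge r (2 ^ m) with hrm | hrm
  · have h1 := block_sum n (2 ^ b) hw a _ r (fun s hs => hblock s (by omega))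
    have h2 := block_sum n (2 ^ b) hw a _ (r + 1) (fun s hs => hblock s (by omega))
    rw [abs_le] at h1 h2
    have h3 : (pc n (n + r * 2 ^ b) : ℝ) ≤ pc n (n + h0) := by exact_mod_cast pc_mono (by omega)
    have h4 : (pc n (n + h0) : ℝ) ≤ pc n (n + (r + 1) * 2 ^ b) := by
      exact_mod_cast pc_mono (by omega)
    have h5 : (r : ℝ) * 2 ^ b ≤ u := by
      have : ((r * 2 ^ b : ℕ) : ℝ) ≤ h0 := by exact_mod_cast hr1
      push_cast at this
      linarith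
    have h6 : u ≤ ((r : ℝ) + 1) * 2 ^ b := by
      have : ((h0 + 1 : ℕ) : ℝ) ≤ (((r + 1) * 2 ^ b : ℕ) : ℝ) := by exact_mod_cast hr2
      push_cast at this
      linarith
    have h7 : ((r : ℝ) + 1) * 2 ^ b ≤ 2 ^ j := by
      have : (r + 1) * 2 ^ b ≤ 2 ^ j := by
        rw [hjw]
        exact Nat.mul_le_mul_right _ hrm
      exact_mod_cast this
    push_cast at h1 h2
    have h8 : (r : ℝ) * 2 ^ b * a ≤ u * a := mul_le_mul_of_nonneg_right h5 ha0
    have h9 : u * a ≤ ((r : ℝ) + 1) * 2 ^ b * a := mul_le_mul_of_nonneg_right h6 ha0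
    have h10 : ((r : ℝ) + 1) * 2 ^ b * (m * (τ / L) / 2) ≤ 2 ^ j * (m * (τ / L) / 2) :=
      mul_le_mul_of_nonneg_right h7 hmt0
    have h11 : (r : ℝ) * 2 ^ b * (m * (τ / L) / 2) ≤ ((r : ℝ) + 1) * 2 ^ b * (m * (τ / L) / 2) := by
      apply mul_le_mul_of_nonneg_right _ hmt0
      nlinarith
    have h12 : ((r : ℝ) + 1) * 2 ^ b * a = (r : ℝ) * 2 ^ b * a + 2 ^ b * a := by ring
    rw [abs_le]
    constructor <;> linarith [h1.1, h1.2, h2.1, h2.2]
  · -- `u = 2 ^ j`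
    have h1 : 2 ^ j ≤ h0 := by
      rw [hjw]
      exact (Nat.mul_le_mul_right _ hrm).trans hr1
    have h2 : (h0 : ℝ) ≤ ((2 ^ j : ℕ) : ℝ) := by
      push_cast
      exact hh0le.trans hu1
    have h3 : h0 = 2 ^ j := le_antisymm (by exact_mod_cast h2) h1
    have h4 : u = 2 ^ j := by
      apply le_antisymm hu1
      rw [h3] at hh0le
      push_cast at hh0le
      exact hh0le
    rw [h3, h4, ha]
    have h5 : (2 : ℝ) ^ j * ((pc n (n + 2 ^ j) : ℝ) / 2 ^ j) = pc n (n + 2 ^ j) := by field_simp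
    rw [h5, sub_self, abs_zero]
    positivity

end Pool.Agent.H357R2.SI
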