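import Pool.Agent.H357R2.SI.RegularRel
import Pool.Agent.H357R2.SI.RegularMain

set_option autoImplicit false

open Filter Topology

namespace Pool.Agent.H357R2.SI

open Classical in
/-- the integers `n < N` for which the primes in `(n, n + 2^j]` are not equidistributed up to
`δ (2^j / log N + π(n, 2^j))` -/
noncomputable def irrR (δ : ℝ) (N j : ℕ) : Finset ℕ :=
  (Finset.range N).filter (fun n : ℕ => ¬ ∀ u : ℝ, 0 ≤ u → u ≤ 2 ^ j →
    |(piS n u : ℝ) - u / 2 ^ j * piS n (2 ^ j)| ≤ δ * (2 ^ j / Real.log N + piS n (2 ^ j)))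

theorem regularity_sum (δ : ℝ) (hδ : 0 < δ) : ∃ J : ℝ, ∀ᶠ N : ℕ in atTop,
    ∑ j ∈ (Finset.range N).filter (fun j : ℕ => Real.log N ≤ 2 ^ j ∧ 2 ^ j ≤ N),
      ((irrR δ N j).card : ℝ) ≤ J * N := by
  classical
  obtain ⟨C, hC1, N₀, hN₀3, hmom⟩ := second_moment_scales
  have hC0 : 0 < C := by linarith
  set m : ℕ := ⌈1 / δ⌉₊ with hm
  have hm1 : 1 / δ ≤ m := Nat.le_ceil _
  have hm2 : (m : ℝ) ≤ 2 ^ m := by
    have : m < 2 ^ m := Nat.lt_two_pow_self
    exact_mod_cast this.le
  have hδm : 1 / 2 ^ m ≤ δ := by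
    rw [div_le_iff₀ (by positivity)]
    rw [div_le_iff₀ hδ] at hm1
    have := mul_le_mul_of_nonneg_right hm2 hδ.le
    linarith
  set τ : ℝ := 2 * δ / (m + 1) with hτ
  have hm0 : (0 : ℝ) ≤ m := Nat.cast_nonneg m
  have hτ0 : 0 < τ := by positivity
  have hmτ : m * τ / 2 ≤ δ := by
    have : m * τ ≤ 2 * δ := by
      rw [hτ, mul_div_assoc', div_le_iff₀ (by positivity)]
      nlinarith
    linarith
  refine ⟨m + 2 ^ m * m * (12 * C / τ ^ 2), ?_⟩
  filter_upwards [eventually_ge_atTop N₀] with N hN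
  have hN3n : 3 ≤ N := hN₀3.trans hN
  have hN3 : (3 : ℝ) ≤ N := by exact_mod_cast hN3n
  set L : ℝ := Real.log N with hL
  have hL0 : 0 < L := Real.log_pos (by linarith)
  set Z : ℕ := 3 * N with hZ
  set j0 : ℕ := Nat.clog 2 ⌈L⌉₊ with hj0
  have hj0L : L ≤ 2 ^ j0 := by
    have h1 : ⌈L⌉₊ ≤ 2 ^ j0 := Nat.le_pow_clog (by norm_num) _
    have h2 : L ≤ ⌈L⌉₊ := Nat.le_ceil _
    have h3 : ((⌈L⌉₊ : ℕ) : ℝ) ≤ ((2 ^ j0 : ℕ) : ℝ) := by exact_mod_cast h1
    push_cast at h3
    linarith
  have hj0le : ∀ j : ℕ, L ≤ 2 ^ j → j0 ≤ j := by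
    intro j hj
    rw [hj0]
    apply Nat.clog_le_of_le_pow
    rw [Nat.ceil_le]
    push_cast
    exact hj
  have hNpos : (0 : ℝ) < N := by linarith
  set J1 := Nat.log 2 N with hJ1
  -- the admissible scales
  have hscales : (Finset.range N).filter (fun j : ℕ => Real.log N ≤ 2 ^ j ∧ 2 ^ j ≤ N) ⊆
      Finset.Ico j0 (j0 + m) ∪ (Finset.Ico j0 (J1 + 1 - m)).image (fun b => b + m) := by
    intro j hj
    rw [Finset.mem_filter] at hj
    obtain ⟨-, hj1, hj2⟩ := hj
    have h1 := hj0le j hj1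
    have h2 : j ≤ J1 := (Nat.le_log_iff_pow_le (by norm_num) (by omega)).mpr hj2
    rw [Finset.mem_union, Finset.mem_Ico, Finset.mem_image]
    by_cases h3 : j < j0 + m
    · exact Or.inl ⟨h1, h3⟩
    · right
      exact ⟨j - m, Finset.mem_Ico.mpr ⟨by omega, by omega⟩, by omega⟩
  have htriv : ∀ j, ((irrR δ N j).card : ℝ) ≤ N := by
    intro j
    have : (irrR δ N j).card ≤ N := by
      refine (Finset.card_filter_le _ _).trans ?_
      rw [Finset.card_range]
    exact_mod_cast this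
  -- energies
  let β : ℕ → ℝ := fun i => 4 * (Df Z (2 ^ i) / 4 ^ (i + 1)) * L ^ 2 / τ ^ 2
  have hβ0 : ∀ i, 0 ≤ β i := by
    intro i
    have := Df_nonneg Z (2 ^ i)
    simp only [β]
    positivity
  have hgood : ∀ b ∈ Finset.Ico j0 (J1 + 1 - m), ((irrR δ N (b + m)).card : ℝ) ≤
      ∑ k ∈ Finset.range m, 2 ^ m * β (b + k) := by
    intro b hb
    rw [Finset.mem_Ico] at hb
    have hjN : 2 ^ (b + m) ≤ N := by
      have h1 : 2 ^ J1 ≤ N := Nat.pow_log_le_self 2 (by omega)
      exact (Nat.pow_le_pow_right (by norm_num) (by omega)).trans h1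
    let B1 : ℕ → ℕ → Finset ℕ := fun i q => (Finset.range N).filter
      (fun n => q * 2 ^ (i + 1) < 2 ^ (b + m) ∧ τ * 2 ^ i / L <
        |(SZ Z (2 ^ i) (n + q * 2 ^ (i + 1)) : ℝ) - SZ Z (2 ^ i) (n + q * 2 ^ (i + 1) + 2 ^ i)|)
    have hsub : irrR δ N (b + m) ⊆ (Finset.range m).biUnion
        (fun k => (Finset.range (2 ^ m)).biUnion (fun q => B1 (b + k) q)) := by
      intro n hn
      unfold irrR at hn
      rw [Finset.mem_filter, Finset.mem_range] at hn
      obtain ⟨hnN, hn2⟩ := hn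
      by_contra hcon
      rw [Finset.mem_biUnion] at hcon
      apply hn2
      have h2 := pointwise_rel N b m n τ hτ0.le hN3n hnN hjN (by
        intro i hi1 hi2 q hq
        by_contra h
        push Not at h
        apply hcon
        refine ⟨i - b, Finset.mem_range.mpr (by omega), ?_⟩
        rw [Finset.mem_biUnion]
        refine ⟨q, ?_, ?_⟩
        · rw [Finset.mem_range]
          by_contra hq2
          push Not at hq2
          have h3 : 2 ^ m * 2 ^ (i + 1) ≤ q * 2 ^ (i + 1) := Nat.mul_le_mul_right _ hq2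
          have h4 : 2 ^ (b + m) ≤ 2 ^ m * 2 ^ (i + 1) := by
            rw [← pow_add]
            exact Nat.pow_le_pow_right (by norm_num) (by omega)
          omega
        · have hbi : b + (i - b) = i := by omega
          rw [hbi]
          simp only [B1]
          rw [Finset.mem_filter, Finset.mem_range]
          exact ⟨hnN, hq, h⟩)
      intro u hu0 hu1
      refine (h2 u hu0 hu1).trans ?_
      have hp0 : (0 : ℝ) ≤ piS n (2 ^ (b + m)) := Nat.cast_nonneg _
      have h5 : m * τ / 2 * (2 ^ (b + m) / Real.log N) ≤ δ * (2 ^ (b + m) / Real.log N) := by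
        apply mul_le_mul_of_nonneg_right hmτ
        rw [← hL]; positivity
      have h6 : (piS n (2 ^ (b + m)) : ℝ) / 2 ^ m ≤ δ * piS n (2 ^ (b + m)) := by
        rw [div_eq_mul_one_div, mul_comm]
        exact mul_le_mul_of_nonneg_right hδm hp0
      rw [mul_add]
      exact add_le_add h5 h6
    have hB1c : ∀ k ∈ Finset.range m, ∀ q ∈ Finset.range (2 ^ m),
        ((B1 (b + k) q).card : ℝ) ≤ β (b + k) := by
      intro k hk q _
      rw [Finset.mem_range] at hk
      set i := b + k with hi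
      have h2 := markov_sq (Finset.range Z)
        (fun y => (SZ Z (2 ^ i) y : ℝ) - SZ Z (2 ^ i) (y + 2 ^ i))
        (τ * 2 ^ i / L) (Df Z (2 ^ i)) (by positivity) le_rfl
        ((B1 i q).image (fun n => n + q * 2 ^ (i + 1))) (by
          intro y hy
          obtain ⟨n, hn, rfl⟩ := Finset.mem_image.mp hy
          simp only [B1] at hn
          rw [Finset.mem_filter, Finset.mem_range] at hn
          rw [Finset.mem_range]
          omega) (by
          intro y hy
          obtain ⟨n, hn, rfl⟩ := Finset.mem_image.mp hy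
          simp only [B1] at hn
          rw [Finset.mem_filter] at hn
          exact hn.2.2.le)
      rw [Finset.card_image_of_injective _ (add_left_injective _)] at h2
      refine h2.trans (le_of_eq ?_)
      have h4 : (4 : ℝ) ^ (i + 1) = 4 * (2 ^ i) ^ 2 := by
        rw [pow_succ, ← pow_mul, mul_comm i 2, pow_mul]
        norm_num
        ring
      simp only [β]
      rw [h4]
      field_simp
    have h3 : ((irrR δ N (b + m)).card : ℝ) ≤
        ∑ k ∈ Finset.range m, ∑ q ∈ Finset.range (2 ^ m), ((B1 (b + k) q).card : ℝ) := by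
      have h4 : (irrR δ N (b + m)).card ≤
          ∑ k ∈ Finset.range m, ∑ q ∈ Finset.range (2 ^ m), (B1 (b + k) q).card :=
        (Finset.card_le_card hsub).trans
          (Finset.card_biUnion_le.trans (Finset.sum_le_sum fun i _ => Finset.card_biUnion_le))
      exact_mod_cast h4
    refine h3.trans (Finset.sum_le_sum fun k hk => ?_)
    calc ∑ q ∈ Finset.range (2 ^ m), ((B1 (b + k) q).card : ℝ)
        ≤ ∑ _q ∈ Finset.range (2 ^ m), β (b + k) := Finset.sum_le_sum fun q hq => hB1c k hk q hq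
      _ = 2 ^ m * β (b + k) := by
          rw [Finset.sum_const, Finset.card_range, nsmul_eq_mul]
          push_cast; rfl
  -- total energy
  have hβsum : ∑ i ∈ Finset.Ico j0 J1, β i ≤ 12 * C / τ ^ 2 * N := by
    rcases Nat.lt_or_ge j0 J1 with hlt | hge
    · have hj0N : 2 ^ j0 ≤ N := by
        have h1 : 2 ^ J1 ≤ N := Nat.pow_log_le_self 2 (by omega)
        exact (Nat.pow_le_pow_right (by norm_num) hlt.le).trans h1
      have hlog3 : Real.log (Z : ℝ) ≤ 2 * L := by
        have h1 : (Z : ℝ) = 3 * N := by rw [hZ]; push_cast; ring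
        rw [h1, Real.log_mul (by norm_num) (by linarith)]
        have h2 : Real.log 3 ≤ L := Real.log_le_log (by norm_num) hN3
        linarith
      have hLZ : L ≤ Real.log (Z : ℝ) := by
        apply Real.log_le_log (by linarith)
        rw [hZ]; push_cast; linarith
      have he : En Z (2 ^ j0) / 4 ^ j0 ≤ 3 * C * N / L ^ 2 := by
        have h1 := hmom Z (2 ^ j0) (by omega) (by push_cast; linarith) (by omega)
        have h2 : En Z (2 ^ j0) ≤ ∑ n ∈ Finset.range Z, ((pc n (n + 2 ^ j0) : ℝ)) ^ 2 := by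
          unfold En
          apply Finset.sum_le_sum
          intro n _
          have : (SZ Z (2 ^ j0) n : ℝ) ≤ pc n (n + 2 ^ j0) := by exact_mod_cast SZ_le
          gcongr
        rw [div_le_iff₀ (by positivity)]
        refine (h2.trans h1).trans ?_
        have h3 : ((2 ^ j0 : ℕ) : ℝ) ^ 2 = 4 ^ j0 := by
          push_cast
          rw [← pow_mul, mul_comm, pow_mul]
          norm_num
        rw [h3]
        have h4 : (Z : ℝ) = 3 * N := by rw [hZ]; push_cast; ring
        rw [h4] at hLZ ⊢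
        calc C * (3 * N) * 4 ^ j0 / Real.log (3 * N) ^ 2
            ≤ C * (3 * N) * 4 ^ j0 / L ^ 2 := by gcongr
          _ = 3 * C * N / L ^ 2 * 4 ^ j0 := by ring
      have h1 := energy_sum Z j0 (J1 - j0)
      have h2 : 0 ≤ En Z (2 ^ (j0 + (J1 - j0))) / 4 ^ (j0 + (J1 - j0)) :=
        div_nonneg (En_nonneg _ _) (by positivity)
      have h3 : ∑ i ∈ Finset.Ico j0 J1, Df Z (2 ^ i) / 4 ^ (i + 1) =
          ∑ i ∈ Finset.range (J1 - j0), Df Z (2 ^ (j0 + i)) / 4 ^ (j0 + i + 1) :=
        Finset.sum_Ico_eq_sum_range _ _ _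
      have h4 : ∑ i ∈ Finset.Ico j0 J1, Df Z (2 ^ i) / 4 ^ (i + 1) ≤ 3 * C * N / L ^ 2 := by
        rw [h3]; linarith
      have h5 : ∑ i ∈ Finset.Ico j0 J1, β i =
          4 * L ^ 2 / τ ^ 2 * ∑ i ∈ Finset.Ico j0 J1, Df Z (2 ^ i) / 4 ^ (i + 1) := by
        rw [Finset.mul_sum]
        apply Finset.sum_congr rfl
        intro i _
        simp only [β]
        ring
      rw [h5]
      calc 4 * L ^ 2 / τ ^ 2 * ∑ i ∈ Finset.Ico j0 J1, Df Z (2 ^ i) / 4 ^ (i + 1)
          ≤ 4 * L ^ 2 / τ ^ 2 * (3 * C * N / L ^ 2) := by gcongr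
        _ = 12 * C / τ ^ 2 * N := by field_simp; ring
    · rw [Finset.Ico_eq_empty (by omega), Finset.sum_empty]
      positivity
  have hsum2 : ∑ b ∈ Finset.Ico j0 (J1 + 1 - m), ((irrR δ N (b + m)).card : ℝ) ≤
      2 ^ m * m * (12 * C / τ ^ 2) * N := by
    calc ∑ b ∈ Finset.Ico j0 (J1 + 1 - m), ((irrR δ N (b + m)).card : ℝ)
        ≤ ∑ b ∈ Finset.Ico j0 (J1 + 1 - m), ∑ k ∈ Finset.range m, 2 ^ m * β (b + k) :=
          Finset.sum_le_sum hgood
      _ = ∑ k ∈ Finset.range m, 2 ^ m * ∑ b ∈ Finset.Ico j0 (J1 + 1 - m), β (b + k) := by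
          rw [Finset.sum_comm]
          apply Finset.sum_congr rfl
          intro k _
          rw [Finset.mul_sum]
      _ ≤ ∑ _k ∈ Finset.range m, 2 ^ m * (12 * C / τ ^ 2 * N) := by
          apply Finset.sum_le_sum
          intro k hk
          rw [Finset.mem_range] at hk
          apply mul_le_mul_of_nonneg_left _ (by positivity)
          refine le_trans ?_ hβsum
          have h1 : ∑ b ∈ Finset.Ico j0 (J1 + 1 - m), β (b + k) =
              ∑ i ∈ (Finset.Ico j0 (J1 + 1 - m)).image (fun b => b + k), β i := by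
            rw [Finset.sum_image]
            intro x _ y _ hxy
            exact Nat.add_right_cancel hxy
          rw [h1]
          apply Finset.sum_le_sum_of_subset_of_nonneg
          · intro i hi
            obtain ⟨b, hb, rfl⟩ := Finset.mem_image.mp hi
            rw [Finset.mem_Ico] at hb ⊢
            omega
          · intro i _ _
            exact hβ0 i
      _ = 2 ^ m * m * (12 * C / τ ^ 2) * N := by
          rw [Finset.sum_const, Finset.card_range, nsmul_eq_mul]
          ring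
  have hsum1 : ∑ j ∈ Finset.Ico j0 (j0 + m), ((irrR δ N j).card : ℝ) ≤ m * N := by
    calc ∑ j ∈ Finset.Ico j0 (j0 + m), ((irrR δ N j).card : ℝ)
        ≤ ∑ _j ∈ Finset.Ico j0 (j0 + m), (N : ℝ) := Finset.sum_le_sum fun j _ => htriv j
      _ = m * N := by
          rw [Finset.sum_const, Nat.card_Ico, nsmul_eq_mul, Nat.add_sub_cancel_left]
  calc ∑ j ∈ (Finset.range N).filter (fun j : ℕ => Real.log N ≤ 2 ^ j ∧ 2 ^ j ≤ N),
      ((irrR δ N j).card : ℝ)
      ≤ ∑ j ∈ Finset.Ico j0 (j0 + m) ∪ (Finset.Ico j0 (J1 + 1 - m)).image (fun b => b + m),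
        ((irrR δ N j).card : ℝ) :=
        Finset.sum_le_sum_of_subset_of_nonneg hscales (fun _ _ _ => Nat.cast_nonneg _)
    _ ≤ ∑ j ∈ Finset.Ico j0 (j0 + m), ((irrR δ N j).card : ℝ) +
        ∑ j ∈ (Finset.Ico j0 (J1 + 1 - m)).image (fun b => b + m), ((irrR δ N j).card : ℝ) := by
        have h1 := Finset.sum_union_inter (s₁ := Finset.Ico j0 (j0 + m))
          (s₂ := (Finset.Ico j0 (J1 + 1 - m)).image (fun b => b + m))
          (f := fun j => ((irrR δ N j).card : ℝ))
        have h2 : 0 ≤ ∑ j ∈ Finset.Ico j0 (j0 + m) ∩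
            (Finset.Ico j0 (J1 + 1 - m)).image (fun b => b + m), ((irrR δ N j).card : ℝ) :=
          Finset.sum_nonneg fun _ _ => Nat.cast_nonneg _
        linarith
    _ = ∑ j ∈ Finset.Ico j0 (j0 + m), ((irrR δ N j).card : ℝ) +
        ∑ b ∈ Finset.Ico j0 (J1 + 1 - m), ((irrR δ N (b + m)).card : ℝ) := by
        rw [Finset.sum_image]
        intro x _ y _ hxy
        exact Nat.add_right_cancel hxy
    _ ≤ m * N + 2 ^ m * m * (12 * C / τ ^ 2) * N := add_le_add hsum1 hsum2
    _ = (m + 2 ^ m * m * (12 * C / τ ^ 2)) * N := by ring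

end Pool.Agent.H357R2.SI
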