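import Pool.Agent.H357R2.SI.Ladder

set_option autoImplicit false

open Filter Topology

namespace Pool.Agent.H357R2.SI

lemma pcl_le_pc {g m h H' : ℕ} (h1 : m < g) (h2 : g + H' ≤ m + h + 1) :
    pcl g (g + H') ≤ pc m (m + h) := by
  unfold pcl pc
  apply Finset.card_le_card
  apply Finset.filter_subset_filter
  intro x hx
  rw [Finset.mem_Ico] at hx
  rw [Finset.mem_Ioc]
  omega

lemma pc_le_pcl_add_one {a b : ℕ} (hab : a < b) : (pc a b : ℝ) ≤ pcl a b + 1 := by
  have h1 : pc a b ≤ pcl a b + 1 := by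
    unfold pc pcl
    have h2 : (Finset.Ioc a b).filter Nat.Prime ⊆ insert b ((Finset.Ico a b).filter Nat.Prime) := by
      intro x hx
      rw [Finset.mem_filter, Finset.mem_Ioc] at hx
      rw [Finset.mem_insert, Finset.mem_filter, Finset.mem_Ico]
      by_cases h : x = b
      · exact Or.inl h
      · exact Or.inr ⟨by omega, hx.2⟩
    exact (Finset.card_le_card h2).trans (Finset.card_insert_le _ _)
  exact_mod_cast h1

open Classical in
/-- integers with the lower bound at all scales -/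
noncomputable def lowc (δ K : ℝ) (N : ℕ) : Finset ℕ :=
  (Finset.range N).filter (fun m : ℕ => ∀ H : ℝ, K * Real.log m ≤ H → H ≤ m →
    (1 - δ) * H / Real.log m ≤ piS m H)

lemma lower_all_scales (δ : ℝ) (hδ0 : 0 < δ) (hδ1 : δ < 1) :
    ∃ c : ℝ, 0 < c ∧ ∀ᶠ N : ℕ in atTop, c * N ≤ (lowc δ (4 / δ) N).card := by
  classical
  obtain ⟨C, hC1, N₁, hN₁3, hmom⟩ := second_moment_bound
  set μ : ℝ := 1 - δ / 2 with hμ
  have hμ0 : 0 < μ := by rw [hμ]; linarith
  have hμ1 : μ < 1 := by rw [hμ]; linarith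
  set η : ℝ := δ / 100 with hη
  have hη0 : 0 < η := by positivity
  have hη1 : η ≤ 1 / 100 := by rw [hη]; linarith
  set e : ℝ := δ * η ^ 2 / 10 with he
  have he0 : 0 < e := by positivity
  have heη : e ≤ η := by
    rw [he]
    have : η ^ 2 ≤ 1 := by nlinarith
    nlinarith
  have he1 : e < 1 := by linarith
  obtain ⟨X₁, hX₁3, hX₁⟩ := pnt e he0
  obtain ⟨X₂, hX₂3, hX₂⟩ := pc_window_lower e he0 he1
  refine ⟨δ ^ 2 / (64 * C), by positivity, ?_⟩
  have hNlim : Tendsto (fun N : ℕ => η * (N : ℝ)) atTop atTop :=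
    (tendsto_natCast_atTop_atTop).const_mul_atTop hη0
  have hXlim : Tendsto (fun N : ℕ => ⌊η * (N : ℝ)⌋₊) atTop atTop :=
    tendsto_nat_floor_atTop.comp hNlim
  have hlogN : Tendsto (fun N : ℕ => Real.log (N : ℝ)) atTop atTop :=
    Real.tendsto_log_atTop.comp tendsto_natCast_atTop_atTop
  have hNr : Tendsto (fun N : ℕ => (N : ℝ)) atTop atTop := tendsto_natCast_atTop_atTop
  have hlogsmall : ∀ᶠ N : ℕ in atTop, Real.log N ≤ η ^ 2 * N := by
    have h := Real.isLittleO_log_id_atTop.bound (by positivity : (0 : ℝ) < η ^ 2)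
    have h2 := hNr.eventually h
    filter_upwards [h2, eventually_ge_atTop 1] with N hN hN1
    have hN1' : (1 : ℝ) ≤ N := by exact_mod_cast hN1
    rwa [Real.norm_of_nonneg (Real.log_nonneg hN1'), id, Real.norm_of_nonneg (by linarith)] at hN
  filter_upwards [hXlim.eventually_ge_atTop (max X₁ X₂), hNlim.eventually_ge_atTop 2,
    hlogN.eventually_ge_atTop (Real.log (2 / η) / η), hlogN.eventually_ge_atTop 2,
    hNr.eventually_ge_atTop (2 / (δ * η ^ 2)), eventually_ge_atTop N₁, hlogsmall]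
    with N hXN hN2 hLN hL2 hNbig hNN₁ hlogs
  set X : ℕ := ⌊η * (N : ℝ)⌋₊ with hX
  have hX1 : X₁ ≤ X := (le_max_left _ _).trans hXN
  have hX2 : X₂ ≤ X := (le_max_right _ _).trans hXN
  have hX3 : 3 ≤ X := hX₁3.trans hX1
  have hNpos : (0 : ℝ) < N := by
    by_contra h
    have : (N : ℝ) ≤ 0 := not_lt.mp h
    nlinarith
  have hXle : (X : ℝ) ≤ η * N := Nat.floor_le (by positivity)
  have hXN' : (X : ℝ) ≤ N := by nlinarith
  have hXNn : X ≤ N := by exact_mod_cast hXN'
  have hXge : η * N / 2 ≤ X := by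
    have := Nat.lt_floor_add_one (η * (N : ℝ))
    rw [← hX] at this
    linarith
  have hXr : (3 : ℝ) ≤ X := by exact_mod_cast hX3
  set L : ℝ := Real.log N with hL
  set ℓ : ℝ := Real.log X with hℓ
  have hℓ0 : 0 < ℓ := Real.log_pos (by linarith)
  have hL0 : 0 < L := Real.log_pos (by linarith)
  have hℓL : ℓ ≤ L := Real.log_le_log (by linarith) hXN'
  have hratio : (1 - η) * L ≤ ℓ := by
    have h1 : Real.log (η * N / 2) ≤ ℓ := Real.log_le_log (by positivity) hXge
    have h2 : Real.log (η * N / 2) = L - Real.log (2 / η) := by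
      rw [show η * (N : ℝ) / 2 = N / (2 / η) by field_simp, Real.log_div (by positivity)
        (by positivity)]
    rw [div_le_iff₀ hη0] at hLN
    nlinarith
  set T : ℕ := ⌊L⌋₊ with hT
  have hTL : (T : ℝ) ≤ L := Nat.floor_le hL0.le
  have hTL2 : L / 2 ≤ T := by
    have := Nat.lt_floor_add_one L
    rw [← hT] at this
    linarith
  set K : ℕ := ⌊η ^ 2 * (N : ℝ)⌋₊ with hK
  have hKle : (K : ℝ) ≤ η ^ 2 * N := Nat.floor_le (by positivity)
  have hη2 : η ^ 2 ≤ η / 100 := by nlinarith
  have hXTr : (X : ℝ) + T ≤ 2 * η * N := by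
    have : L ≤ η * N := hlogs.trans (by nlinarith)
    linarith
  have hXT : X + T < N := by
    have : ((X + T : ℕ) : ℝ) < N := by push_cast; nlinarith
    exact_mod_cast this
  set c : ℝ := μ / ℓ with hc
  have hc0 : 0 < c := by positivity
  set G := (Finset.Ico (X + T) N).filter (fun n => ∀ H : ℕ, 1 ≤ H →
      H ≤ K → c * H ≤ pcl n (n + H)) with hG
  -- lower bound for G
  have hgc := gc_lower c hc0 K (N - (X + T)) (X + T) N rfl hXT.le
  rw [← hG] at hgc
  have hpcl : (1 - e) * N / L - 4 * (2 * η * N) / L - 1 ≤ pcl (X + T) N := by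
    have h1 := pc_le_pcl_add_one hXT
    rw [pc_eq_sub hXT.le] at h1
    have h2 := (hX₁ N (hX1.trans hXNn)).1
    have h3 := (hX₁ (X + T) (by omega)).2
    have h4 : (1 + e) * ((X + T : ℕ) : ℝ) / Real.log ((X + T : ℕ) : ℝ) ≤ 4 * (2 * η * N) / L := by
      have h5 : L / 2 ≤ Real.log ((X + T : ℕ) : ℝ) := by
        have h6 : ℓ ≤ Real.log ((X + T : ℕ) : ℝ) := by
          apply Real.log_le_log (by linarith)
          push_cast
          have : (0 : ℝ) ≤ T := Nat.cast_nonneg T
          linarith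
        nlinarith
      calc (1 + e) * ((X + T : ℕ) : ℝ) / Real.log ((X + T : ℕ) : ℝ)
          ≤ 2 * (2 * η * N) / (L / 2) := by
            apply div_le_div₀ (by positivity) _ (by positivity) h5
            apply mul_le_mul (by linarith) _ (by positivity) (by norm_num)
            push_cast
            exact hXTr
        _ = 4 * (2 * η * N) / L := by field_simp; ring
    linarith
  have hcb : c * ((N : ℝ) - ((X + T : ℕ) : ℝ) + K) ≤ (1 - δ / 2 + 3 * η) * N / L := by
    have h1 : (N : ℝ) - ((X + T : ℕ) : ℝ) + K ≤ (1 + η ^ 2) * N := by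
      have : (0 : ℝ) ≤ ((X + T : ℕ) : ℝ) := Nat.cast_nonneg _
      linarith
    calc c * ((N : ℝ) - ((X + T : ℕ) : ℝ) + K) ≤ c * ((1 + η ^ 2) * N) := by gcongr
      _ = μ * (1 + η ^ 2) * N / ℓ := by rw [hc]; ring
      _ ≤ (1 - δ / 2 + 3 * η) * N / L := by
        rw [div_le_div_iff₀ hℓ0 hL0]
        have h2 : μ * (1 + η ^ 2) ≤ (1 - δ / 2 + 3 * η) * (1 - η) := by
          rw [hμ]
          nlinarith
        calc μ * (1 + η ^ 2) * N * L ≤ (1 - δ / 2 + 3 * η) * (1 - η) * N * L := by gcongr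
          _ = (1 - δ / 2 + 3 * η) * N * ((1 - η) * L) := by ring
          _ ≤ (1 - δ / 2 + 3 * η) * N * ℓ := by
            apply mul_le_mul_of_nonneg_left hratio
            apply mul_nonneg _ hNpos.le
            linarith
  have hGcard : δ / 4 * N / L ≤ G.card := by
    have h1 : (1 : ℝ) ≤ η * N / L := by
      rw [le_div_iff₀ hL0]
      have : η ^ 2 * N ≤ η * N := by nlinarith
      linarith
    have h2 : δ / 4 * N / L ≤ ((1 - e) * N / L - 4 * (2 * η * N) / L - η * N / L) -
        (1 - δ / 2 + 3 * η) * N / L := by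
      rw [← sub_div, ← sub_div, ← sub_div]
      apply div_le_div_of_nonneg_right _ hL0.le
      have h3 : δ / 4 ≤ (1 - e) - 8 * η - η - (1 - δ / 2 + 3 * η) := by
        have : η = δ / 100 := hη
        linarith
      have h4 := mul_le_mul_of_nonneg_right h3 hNpos.le
      linarith
    linarith
  -- every element of G is a prime
  have hGp : ∀ g ∈ G, X + T ≤ g ∧ g < N ∧ g.Prime := by
    intro g hg
    rw [hG, Finset.mem_filter, Finset.mem_Ico] at hg
    refine ⟨hg.1.1, hg.1.2, ?_⟩
    have hK1 : 1 ≤ K := by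
      rw [hK]
      apply Nat.le_floor
      push_cast
      linarith
    have h1 := hg.2 1 le_rfl hK1
    by_contra hnp
    have h2 : pcl g (g + 1) = 0 := by
      unfold pcl
      rw [Nat.Ico_succ_singleton, Finset.filter_singleton, if_neg hnp]
      rfl
    rw [h2] at h1
    push_cast at h1
    linarith
  -- second moment
  have hm := hmom N T hNN₁ (by rw [← hL]; linarith)
  have hCN : 0 < C * N := by positivity
  have hmm := moment_method G X N T hGp (C * N) hCN hm
  have hbig : δ ^ 2 / (64 * C) * N ≤ ((T : ℝ) * G.card) ^ 2 / (C * N) := by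
    rw [le_div_iff₀ hCN]
    have h1 : L / 2 * (δ / 4 * N / L) ≤ (T : ℝ) * G.card := by
      apply mul_le_mul hTL2 hGcard (by positivity) (by positivity)
    have h2 : L / 2 * (δ / 4 * N / L) = δ * N / 8 := by field_simp; ring
    rw [h2] at h1
    calc δ ^ 2 / (64 * C) * N * (C * N) = (δ * N / 8) ^ 2 := by field_simp; ring
      _ ≤ ((T : ℝ) * G.card) ^ 2 := by gcongr
  refine (hbig.trans hmm).trans ?_
  -- inclusion
  have hsub : (Finset.Ico X N).filter (fun m => ∃ g ∈ G, m < g ∧ g ≤ m + T) ⊆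
      lowc δ (4 / δ) N := by
    intro m hm
    rw [Finset.mem_filter, Finset.mem_Ico] at hm
    obtain ⟨⟨hmX, hmN⟩, g, hg, hmg, hgT⟩ := hm
    unfold lowc
    rw [Finset.mem_filter, Finset.mem_range]
    refine ⟨hmN, ?_⟩
    intro H hH1 hH2
    have hmXr : (X : ℝ) ≤ m := by exact_mod_cast hmX
    have hmNr : (m : ℝ) ≤ N := by exact_mod_cast hmN.le
    have hlogm : ℓ ≤ Real.log m := Real.log_le_log (by linarith) hmXr
    have hlogm0 : 0 < Real.log m := lt_of_lt_of_le hℓ0 hlogm
    have hHT : 2 * T / δ ≤ H := by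
      have h1 : 4 / δ * ℓ ≤ 4 / δ * Real.log m := by gcongr
      have h2 : L ≤ 2 * ℓ := by nlinarith
      have h3 : 2 * (T : ℝ) / δ ≤ 4 / δ * ℓ := by
        rw [div_mul_eq_mul_div]
        apply div_le_div_of_nonneg_right _ hδ0.le
        linarith
      linarith
    have hT1 : (1 : ℝ) ≤ T := by linarith
    have hH0 : 0 < H := lt_of_lt_of_le (by positivity) hHT
    have hTH : (T : ℝ) ≤ δ / 2 * H := by
      rw [div_le_iff₀ hδ0] at hHT
      linarith
    rw [piS_nat m H hH0.le]
    set h : ℕ := ⌊H⌋₊ with hh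
    have hhle : (h : ℝ) ≤ H := Nat.floor_le hH0.le
    have hhlt : H < h + 1 := Nat.lt_floor_add_one H
    have hTh : T ≤ h := by
      rw [hh]
      apply Nat.le_floor
      nlinarith
    obtain ⟨H', hH'⟩ : ∃ H' : ℕ, g + H' = m + h + 1 := ⟨m + h + 1 - g, by omega⟩
    have hH'ge : (h : ℝ) + 1 - T ≤ H' := by
      have h1 : ((g + H' : ℕ) : ℝ) = ((m + h + 1 : ℕ) : ℝ) := by rw [hH']
      have h2 : (g : ℝ) ≤ m + T := by exact_mod_cast hgT
      push_cast at h1
      linarith
    have hH'pos : 1 ≤ H' := by omega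
    rcases Nat.lt_or_ge K H' with hcase | hcase
    · -- long windows
      have h1 : η ^ 2 * N < H' := (Nat.floor_lt (by positivity)).mp hcase
      have h2 : (H' : ℝ) ≤ h := by
        have : H' ≤ h := by omega
        exact_mod_cast this
      have hhm : h ≤ m := by
        have : (h : ℝ) ≤ m := hhle.trans hH2
        exact_mod_cast this
      have h3 := hX₂ m h (hX2.trans hmX) hhm
      rw [div_le_iff₀ hlogm0]
      refine le_trans ?_ h3
      have h4 : 5 * e * m ≤ 5 * e * N := by gcongr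
      have h5 : δ * η ^ 2 * N ≤ δ * H := by
        have : η ^ 2 * N ≤ H := by linarith
        nlinarith
      have h6 : 1 ≤ δ * η ^ 2 * N / 2 := by
        rw [div_le_iff₀ (by positivity)] at hNbig
        linarith
      have h7 : 5 * e * N = δ * η ^ 2 * N / 2 := by rw [he]; ring
      linarith
    · -- short windows
      rw [hG, Finset.mem_filter] at hg
      have h1 := hg.2 H' hH'pos hcase
      have h2 : (pcl g (g + H') : ℝ) ≤ pc m (m + h) := by
        exact_mod_cast pcl_le_pc hmg hH'.le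
      refine le_trans ?_ (h1.trans h2)
      rw [hc, div_mul_eq_mul_div, div_le_div_iff₀ hlogm0 hℓ0]
      have h3 : (1 - δ) * H ≤ μ * H' := by
        have h4 : μ * (H - T) ≤ μ * H' := by
          apply mul_le_mul_of_nonneg_left _ hμ0.le
          linarith
        have h5 : (1 - δ) * H ≤ μ * (H - T) := by
          rw [hμ]
          nlinarith
        linarith
      calc (1 - δ) * H * ℓ ≤ μ * H' * ℓ := by gcongr
        _ ≤ μ * H' * Real.log m := by
          apply mul_le_mul_of_nonneg_left hlogm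
          positivity
  exact_mod_cast Finset.card_le_card hsub

end Pool.Agent.H357R2.SI
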